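import Mathlib

set_option autoImplicit false

/-! # Angles in an inner product space: lemmas for the construction -/

namespace Pool.Agent.K7.H61.RA

open InnerProductGeometry Set
open scoped InnerProductSpace

variable {V : Type*} [NormedAddCommGroup V] [InnerProductSpace ℝ V]

theorem angle_le_pi_mul (x y : V) (hx : ‖x‖ = 1) : angle x y ≤ Real.pi * ‖y - x‖ := by
  by_cases hy : y = 0
  · rw [hy, angle_zero_right]
    rw [zero_sub, norm_neg, hx]
    linarith [Real.pi_pos]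
  · have hy0 : 0 < ‖y‖ := norm_pos_iff.2 hy
    set z := (‖y‖)⁻¹ • y with hz
    have hz1 : ‖z‖ = 1 := by
      rw [hz, norm_smul, norm_inv, norm_norm, inv_mul_cancel₀ hy0.ne']
    have hang : angle x y = angle x z := by
      rw [hz, angle_smul_right_of_pos _ _ (inv_pos.2 hy0)]
    have h1 : Real.cos (angle x z) = ⟪x, z⟫_ℝ := by
      rw [cos_angle, hx, hz1]; simp
    have h2 : ‖x - z‖ ^ 2 = 2 - 2 * ⟪x, z⟫_ℝ := by
      rw [@norm_sub_sq_real, hx, hz1]; ring
    have h3 : Real.cos (angle x z) ≤ 1 - 2 / Real.pi ^ 2 * angle x z ^ 2 := by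
      apply Real.cos_le_one_sub_mul_cos_sq
      rw [abs_of_nonneg (angle_nonneg _ _)]
      exact angle_le_pi _ _
    have hpi := Real.pi_pos
    have h4 : angle x z ^ 2 ≤ (Real.pi / 2 * ‖x - z‖) ^ 2 := by
      have h5 : 2 / Real.pi ^ 2 * angle x z ^ 2 ≤ ‖x - z‖ ^ 2 / 2 := by
        rw [h2, ← h1]; linarith
      have h6 : angle x z ^ 2 = Real.pi ^ 2 / 2 * (2 / Real.pi ^ 2 * angle x z ^ 2) := by
        field_simp
      rw [h6]
      calc Real.pi ^ 2 / 2 * (2 / Real.pi ^ 2 * angle x z ^ 2) ≤ Real.pi ^ 2 / 2 * (‖x - z‖ ^ 2 / 2) := by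
            gcongr
        _ = (Real.pi / 2 * ‖x - z‖) ^ 2 := by ring
    have h7 : angle x z ≤ Real.pi / 2 * ‖x - z‖ :=
      (abs_le_of_sq_le_sq' h4 (by positivity)).2
    have h8 : ‖x - z‖ ≤ 2 * ‖y - x‖ := by
      have e1 : x - z = (x - y) + (y - z) := by abel
      have e2 : ‖y - z‖ = |‖y‖ - 1| := by
        have : y - z = (1 - (‖y‖)⁻¹) • y := by rw [hz, sub_smul, one_smul]
        rw [this, norm_smul, Real.norm_eq_abs]
        have e3 : ‖y‖ - 1 = (1 - (‖y‖)⁻¹) * ‖y‖ := by field_simp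
        rw [e3, abs_mul, abs_of_pos hy0]
      have e4 : |‖y‖ - 1| ≤ ‖y - x‖ := by
        have := abs_norm_sub_norm_le y x
        rwa [hx] at this
      rw [e1]
      calc ‖(x - y) + (y - z)‖ ≤ ‖x - y‖ + ‖y - z‖ := norm_add_le _ _
        _ ≤ ‖y - x‖ + ‖y - x‖ := by rw [norm_sub_rev x y, e2]; gcongr
        _ = 2 * ‖y - x‖ := by ring
    rw [hang]
    calc angle x z ≤ Real.pi / 2 * ‖x - z‖ := h7
      _ ≤ Real.pi / 2 * (2 * ‖y - x‖) := by gcongr
      _ = Real.pi * ‖y - x‖ := by ring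

/-- law of sines -/
theorem law (f0 f : V) (h0 : ‖f0‖ = 1) (hf : ‖f‖ = 1) (β θ : ℝ) (hβ : 0 < β) (hθ : 0 < θ)
    (hs : θ + β < Real.pi) (hin : ⟪f0, f⟫_ℝ = Real.cos β) :
    0 < Real.sin θ / Real.sin (θ + β) ∧
    angle ((Real.sin θ / Real.sin (θ + β)) • f - f0) (-f0) = θ ∧
    (Real.sin θ / Real.sin (θ + β)) • f ≠ f0 := by
  have hsθ : 0 < Real.sin θ := Real.sin_pos_of_pos_of_lt_pi hθ (by linarith)
  have hsβ : 0 < Real.sin β := Real.sin_pos_of_pos_of_lt_pi hβ (by linarith)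
  have hsS : 0 < Real.sin (θ + β) := Real.sin_pos_of_pos_of_lt_pi (by linarith) hs
  set r := Real.sin θ / Real.sin (θ + β) with hr
  have hr0 : 0 < r := by positivity
  have hrS : r * Real.sin (θ + β) = Real.sin θ := by rw [hr]; field_simp
  have hnorm : ‖r • f - f0‖ ^ 2 = (Real.sin β / Real.sin (θ + β)) ^ 2 := by
    rw [@norm_sub_sq_real, norm_smul, h0, hf, inner_smul_left, real_inner_comm, hin, Real.norm_eq_abs,
      abs_of_pos hr0, hr]
    simp only [conj_trivial]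
    field_simp
    rw [Real.sin_add]
    have e1 := Real.sin_sq_add_cos_sq θ
    have e2 := Real.sin_sq_add_cos_sq β
    have e3 : Real.sin β ^ 2 = 1 - Real.cos β ^ 2 := by linarith
    have e4 : Real.cos θ ^ 2 = 1 - Real.sin θ ^ 2 := by linarith
    ring_nf
    rw [e3, e4]
    ring
  have hn : ‖r • f - f0‖ = Real.sin β / Real.sin (θ + β) := by
    have h1 : 0 ≤ Real.sin β / Real.sin (θ + β) := by positivity
    have h2 := norm_nonneg (r • f - f0)
    nlinarith
  have hne : r • f ≠ f0 := by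
    intro h
    rw [h, sub_self, norm_zero] at hn
    have : 0 < Real.sin β / Real.sin (θ + β) := by positivity
    linarith
  refine ⟨hr0, ?_, hne⟩
  have hinner : ⟪r • f - f0, -f0⟫_ℝ = 1 - r * Real.cos β := by
    rw [inner_neg_right, inner_sub_left, inner_smul_left, real_inner_comm, hin, real_inner_self_eq_norm_sq, h0]
    simp
  have hcos : Real.cos (angle (r • f - f0) (-f0)) = Real.cos θ := by
    rw [cos_angle, hinner, hn, norm_neg, h0, hr]
    field_simp
    rw [Real.sin_add]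
    ring
  exact Real.injOn_cos ⟨angle_nonneg _ _, angle_le_pi _ _⟩ ⟨hθ.le, by linarith⟩ hcos

/-- intermediate values of the angle along a ray -/
theorem ray_angle (w P z : V) (hz : z ≠ 0) (hne : ∀ t : ℝ, 0 ≤ t → t • w - P ≠ 0) (hw : w ≠ 0) (θ : ℝ)
    (h : (angle (-P) z < θ ∧ θ < angle w z) ∨ (angle w z < θ ∧ θ < angle (-P) z)) :
    ∃ t : ℝ, 0 < t ∧ angle (t • w - P) z = θ := by
  have hne' : ∀ s ∈ Icc (0 : ℝ) 1, s • w - (1 - s) • P ≠ 0 := by
    intro s hs h0
    by_cases h1 : s = 1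
    · rw [h1] at h0
      simp at h0
      exact hw h0
    · have h2 : 0 < 1 - s := by
        have := lt_of_le_of_ne hs.2 h1
        linarith
      apply hne (s / (1 - s)) (div_nonneg hs.1 h2.le)
      have h3 : (s / (1 - s)) • w - P = (1 - s)⁻¹ • (s • w - (1 - s) • P) := by
        rw [smul_sub, smul_smul, smul_smul, inv_mul_cancel₀ h2.ne', one_smul, div_eq_inv_mul]
      rw [h3, h0, smul_zero]
  have hcont : ContinuousOn (fun s : ℝ => angle (s • w - (1 - s) • P) z) (Icc 0 1) := by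
    intro s hs
    have h1 : ContinuousAt (fun p : V × V => angle p.1 p.2) (s • w - (1 - s) • P, z) :=
      continuousAt_angle (hne' s hs) hz
    have h2 : Continuous (fun s : ℝ => ((s • w - (1 - s) • P, z) : V × V)) := by fun_prop
    exact (ContinuousAt.comp (f := fun s : ℝ => ((s • w - (1 - s) • P, z) : V × V)) h1
      h2.continuousAt).continuousWithinAt
  have e0 : angle ((0 : ℝ) • w - (1 - (0 : ℝ)) • P) z = angle (-P) z := by simp
  have e1 : angle ((1 : ℝ) • w - (1 - (1 : ℝ)) • P) z = angle w z := by simp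
  have huIcc : uIcc (0 : ℝ) 1 = Icc 0 1 := uIcc_of_le zero_le_one
  have hiv := intermediate_value_uIcc (a := (0 : ℝ)) (b := 1)
    (f := fun s : ℝ => angle (s • w - (1 - s) • P) z) (by rw [huIcc]; exact hcont)
  have hmem : θ ∈ uIcc (angle ((0 : ℝ) • w - (1 - (0 : ℝ)) • P) z) (angle ((1 : ℝ) • w - (1 - (1 : ℝ)) • P) z) := by
    rw [e0, e1, mem_uIcc]
    rcases h with h | h
    · exact Or.inl ⟨h.1.le, h.2.le⟩
    · exact Or.inr ⟨h.1.le, h.2.le⟩
  obtain ⟨s, hs, hsθ⟩ := hiv hmem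
  rw [huIcc] at hs
  simp only at hsθ
  have hs0 : s ≠ 0 := by
    rintro rfl
    rw [e0] at hsθ
    rcases h with h | h <;> linarith [h.1, h.2]
  have hs1 : s ≠ 1 := by
    rintro rfl
    rw [e1] at hsθ
    rcases h with h | h <;> linarith [h.1, h.2]
  have h2 : 0 < 1 - s := by
    have := lt_of_le_of_ne hs.2 hs1
    linarith
  have h3 : 0 < s := lt_of_le_of_ne hs.1 (Ne.symm hs0)
  refine ⟨s / (1 - s), by positivity, ?_⟩
  have h4 : (s / (1 - s)) • w - P = (1 - s)⁻¹ • (s • w - (1 - s) • P) := by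
    rw [smul_sub, smul_smul, smul_smul, inv_mul_cancel₀ h2.ne', one_smul, div_eq_inv_mul]
  rw [h4, angle_smul_left_of_pos _ _ (inv_pos.2 h2)]
  exact hsθ

/-- the position of a new point on its ray -/
theorem new_point (w u u' : V) (hw : ‖w‖ = 1) (hu : ‖u‖ = 1) (p p' : ℝ) (hp : 0 < p)
    (hpp : 2 * p ≤ p') (ι κ : ℝ) (hι : 0 < ι) (hin : ι ≤ ⟪w, u⟫_ℝ) (hd : 2 * Real.pi * ‖u' - u‖ ≤ κ)
    (hκι : κ < 2 * ι) (hne : w ≠ u) (θ : ℝ) (hθ : 0 < θ) (hθκ : θ < Real.pi - κ) (hP : p' • u' ≠ p • u) :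
    ∃ t : ℝ, 0 < t ∧ t • w ≠ p • u ∧
      (angle (t • w - p • u) (-(p • u)) = θ ∨ angle (t • w - p • u) (p' • u' - p • u) = θ) := by
  have hw0 : w ≠ 0 := by rintro rfl; simp at hw
  have hu0 : u ≠ 0 := by rintro rfl; simp at hu
  have hPne : p • u ≠ 0 := smul_ne_zero hp.ne' hu0
  have hneq : ∀ t : ℝ, 0 ≤ t → t • w - p • u ≠ 0 := by
    intro t ht h
    rw [sub_eq_zero] at h
    have h1 := congrArg norm h
    rw [norm_smul, norm_smul, hw, hu, Real.norm_eq_abs, Real.norm_eq_abs, abs_of_nonneg ht, abs_of_pos hp,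
      mul_one, mul_one] at h1
    rw [h1] at h
    exact hne (smul_right_injective V hp.ne' h)
  set φ := angle w u with hφ
  have hφ1 : φ ≤ Real.pi / 2 - ι := by
    have hι1 : ι ≤ 1 := hin.trans (by
      have := real_inner_le_norm w u
      rw [hw, hu] at this
      linarith)
    have h1 : Real.cos φ = ⟪w, u⟫_ℝ := by rw [hφ, cos_angle, hw, hu]; simp
    have h2 : Real.cos (Real.pi / 2 - ι) ≤ Real.cos φ := by
      rw [Real.cos_pi_div_two_sub, h1]
      exact (Real.sin_le hι.le).trans hin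
    have hpi2 : ι ≤ Real.pi / 2 := by linarith [Real.pi_gt_three]
    exact (Real.strictAntiOn_cos.le_iff_ge ⟨by linarith, by linarith [Real.pi_pos]⟩
      ⟨angle_nonneg _ _, angle_le_pi _ _⟩).1 h2
  have hκ' : angle u (p' • u' - p • u) ≤ κ := by
    have h1 : 0 < p' - p := by linarith
    have h2 : p' • u' - p • u = (p' - p) • (u + (p' / (p' - p)) • (u' - u)) := by
      rw [smul_add, smul_smul, mul_div_cancel₀ _ h1.ne', sub_smul, smul_sub]
      abel
    rw [h2, angle_smul_right_of_pos _ _ h1]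
    refine (angle_le_pi_mul _ _ hu).trans ?_
    rw [add_sub_cancel_left, norm_smul, Real.norm_eq_abs, abs_of_pos (div_pos (by linarith) h1)]
    refine le_trans ?_ hd
    have h3 : p' / (p' - p) ≤ 2 := by
      rw [div_le_iff₀ h1]; linarith
    calc Real.pi * (p' / (p' - p) * ‖u' - u‖) ≤ Real.pi * (2 * ‖u' - u‖) := by
          gcongr
      _ = 2 * Real.pi * ‖u' - u‖ := by ring
  by_cases hc : θ < Real.pi - φ
  · obtain ⟨t, ht, h⟩ := ray_angle w (p • u) (-(p • u)) (neg_ne_zero.2 hPne) hneq hw0 θ (Or.inl ⟨by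
      rw [angle_self (neg_ne_zero.2 hPne)]; exact hθ, by
      rw [angle_neg_right, angle_smul_right_of_pos _ _ hp]; exact hc⟩)
    exact ⟨t, ht, fun h' => hneq t ht.le (by rw [h', sub_self]), Or.inl h⟩
  · push Not at hc
    obtain ⟨t, ht, h⟩ := ray_angle w (p • u) (p' • u' - p • u) (sub_ne_zero.2 hP) hneq hw0 θ (Or.inr ⟨by
      have h1 := angle_le_angle_add_angle w u (p' • u' - p • u)
      linarith, by
      rw [angle_neg_left, angle_smul_left_of_pos _ _ hp]; linarith⟩)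
    exact ⟨t, ht, fun h' => hneq t ht.le (by rw [h', sub_self]), Or.inr h⟩

end Pool.Agent.K7.H61.RA
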