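import Pool.Agent.K7.H61.RA.Frame
import Pool.Agent.K7.H61.RA.Ang

set_option autoImplicit false

/-! # The base configuration -/

namespace Pool.Agent.K7.H61.RA

open InnerProductGeometry Set
open scoped InnerProductSpace

/-- `θ` is an angle of three points of `S` -/
def RealIn {V : Type*} [NormedAddCommGroup V] [InnerProductSpace ℝ V] (S : Set V) (θ : ℝ) : Prop :=
  ∃ a ∈ S, ∃ b ∈ S, ∃ c ∈ S, a ≠ b ∧ c ≠ b ∧ angle (a - b) (c - b) = θ

theorem RealIn.mono {V : Type*} [NormedAddCommGroup V] [InnerProductSpace ℝ V] {S T : Set V} {θ : ℝ}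
    (h : RealIn S θ) (hST : S ⊆ T) : RealIn T θ := by
  obtain ⟨a, ha, b, hb, c, hc, h⟩ := h
  exact ⟨a, hST ha, b, hST hb, c, hST hc, h⟩

variable {V : Type*} [NormedAddCommGroup V] [InnerProductSpace ℝ V]

theorem angle_of_inner (u v : V) (hu : ‖u‖ = 1) (hv : ‖v‖ = 1) (β : ℝ) (hβ : 0 ≤ β) (hβ' : β ≤ Real.pi)
    (h : ⟪u, v⟫_ℝ = Real.cos β) (r s : ℝ) (hr : 0 < r) (hs : 0 < s) : angle (r • u) (s • v) = β := by
  rw [angle_smul_left_of_pos _ _ hr, angle_smul_right_of_pos _ _ hs]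
  have h1 : Real.cos (angle u v) = Real.cos β := by rw [cos_angle, hu, hv, h]; simp
  exact Real.injOn_cos ⟨angle_nonneg _ _, angle_le_pi _ _⟩ ⟨hβ, hβ'⟩ h1

theorem p_bound (t b : ℝ) (ht : t ∈ Ioo (0.1 : ℝ) 0.2) (hb : |b - Real.pi / 2| < 1 / 10) :
    Real.sin t / Real.sin (t + b) ≤ 0.21 := by
  obtain ⟨h1, h2⟩ := abs_lt.1 hb
  have h3 : Real.sin (t + b) = Real.cos (t + (b - Real.pi / 2)) := by
    rw [← Real.sin_add_pi_div_two]; congr 1; ring
  rw [h3]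
  set x := t + (b - Real.pi / 2) with hx
  have hx1 : 0 < x := by rw [hx]; linarith [ht.1]
  have hx2 : x < 0.3 := by rw [hx]; linarith [ht.2]
  have h4 : 0.955 ≤ Real.cos x := by
    refine le_trans ?_ (Real.one_sub_sq_div_two_le_cos)
    nlinarith
  have h5 : Real.sin t ≤ 0.2 := (Real.sin_le (by linarith [ht.1])).trans (by linarith [ht.2])
  rw [div_le_iff₀ (by linarith)]
  nlinarith

theorem p'_bound (t b : ℝ) (ht : t ∈ Ioo (0.9 : ℝ) 1) (hb : |b - Real.pi / 2| < 1 / 10) :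
    0.65 ≤ Real.sin t / Real.sin (t + b) := by
  obtain ⟨h1, h2⟩ := abs_lt.1 hb
  have hpi := Real.pi_gt_three
  have h3 : 0 < Real.sin (t + b) := by
    apply Real.sin_pos_of_pos_of_lt_pi
    · linarith [ht.1]
    · linarith [ht.2]
  have h5 : 0.65 ≤ Real.sin t := by
    have h6 := Real.sin_gt_sub_cube (x := t) (by linarith [ht.1])
    have h7 : t ^ 3 ≤ 1 := by
      have := pow_le_pow_left₀ (by linarith [ht.1] : (0 : ℝ) ≤ t) ht.2.le 3
      simpa using this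
    linarith [ht.1]
  rw [le_div_iff₀ h3]
  have := Real.sin_le_one (t + b)
  nlinarith

theorem norm_one_of_sq (x : V) (h : ‖x‖ ^ 2 = 1) : ‖x‖ = 1 := by
  nlinarith [norm_nonneg x]

theorem num_aux (σ k : ℝ) (h1 : σ ≤ 1 / 32) (hk : 1 ≤ k) :
    σ * (32 * Real.pi ^ 2) ≤ 1 * (16384 * k) := by
  have h2 : Real.pi ^ 2 ≤ 16 := by
    have h3 := Real.pi_le_four
    have h4 := Real.pi_pos
    calc Real.pi ^ 2 ≤ 4 ^ 2 := pow_le_pow_left₀ h4.le h3 2
      _ = 16 := by norm_num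
  have h5 : 0 ≤ Real.pi ^ 2 := sq_nonneg _
  calc σ * (32 * Real.pi ^ 2) ≤ (1 / 32) * (32 * 16) := by gcongr
    _ ≤ 1 * (16384 * k) := by linarith

theorem delta_aux (ξ σ k : ℝ) (h1 : ξ ≤ 1 / 2) (hσ : 0 < σ) (hσ1 : σ ≤ 1 / 32) (hk : 1 ≤ k) :
    ξ * σ ≤ 1 / 10 * (8 * k) := by
  calc ξ * σ ≤ (1 / 2) * (1 / 32) := by gcongr
    _ ≤ 1 / 10 * (8 * k) := by linarith

theorem sigma_aux (ξ k : ℝ) (h0 : 0 < ξ) (h1 : ξ ≤ 1 / 2) (hk : 1 ≤ k) :
    ξ ^ 2 ≤ 1 / 32 * (8 * k) := by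
  calc ξ ^ 2 ≤ (1 / 2) ^ 2 := pow_le_pow_left₀ h0.le h1 2
    _ ≤ 1 / 32 * (8 * k) := by linarith

theorem omega_aux (ω σ k : ℝ) (h0 : 0 < ω) (hk : 1 ≤ k) (h : k * ω = σ / 2) : ω ≤ σ / 2 := by
  rw [← h]
  calc ω = 1 * ω := (one_mul _).symm
    _ ≤ k * ω := by gcongr

set_option maxHeartbeats 4000000 in
/-- the base configuration, and what can be added to it -/
theorem base (K : ℕ) (η : ℝ) (hη : 0 < η) (hη1 : η < Real.pi / 2) :
    ∃ (W : Set ℝ) (δ₀ δ C ι : ℝ), IsOpen W ∧ W.Nonempty ∧ W ⊆ Ioo 0 (Real.pi / 2) ∧ 0 < δ₀ ∧ δ₀ ≤ 1 / 10 ∧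
      0 < δ ∧ 0 < C ∧ 0 < ι ∧
      ∀ (β : Sym2 (Fin (K + 1)) → ℝ), (∀ s, ¬ s.IsDiag → β s ∈ W) →
      ∀ (τ : Fin K → ℝ), (∀ j, τ j ∈ Ioo (1 / 4 : ℝ) (1 / 2)) →
      ∀ (tP tP' : ℝ), tP ∈ Ioo (0.1 : ℝ) 0.2 → tP' ∈ Ioo (0.9 : ℝ) 1 →
      ∀ (b b' : Fin (K + 1) → ℝ), (∀ i, |b i - Real.pi / 2| < δ₀) → (∀ i, |b' i - Real.pi / 2| < δ₀) →
      ∀ κ : ℝ, 0 < κ → κ < ι → (∀ i, C * |b i - b' i| ≤ κ) →
      ∃ S₀ : Finset (Sp (K + 1)), S₀.card ≤ K + 4 ∧ (∀ s : Sym2 (Fin (K + 1)), ¬ s.IsDiag → RealIn (S₀ : Set (Sp (K + 1))) (β s)) ∧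
        (∀ j, RealIn (S₀ : Set (Sp (K + 1))) (τ j)) ∧ RealIn (S₀ : Set (Sp (K + 1))) tP ∧
        RealIn (S₀ : Set (Sp (K + 1))) tP' ∧ (∀ i, RealIn (S₀ : Set (Sp (K + 1))) (b i)) ∧
        (∀ i, RealIn (S₀ : Set (Sp (K + 1))) (b' i)) ∧
        ∀ (γ : Fin (K + 1) → ℝ) (θ : ℝ), (∀ i, γ i ∈ Icc η (Real.pi - η)) → (∀ i j, |γ i - γ j| ≤ δ) →
          0 < θ → θ < Real.pi - κ →
          ∃ X : Sp (K + 1), (∀ i, RealIn (insert X (S₀ : Set (Sp (K + 1)))) (γ i)) ∧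
            RealIn (insert X (S₀ : Set (Sp (K + 1)))) θ := by
  classical
  have hpi := Real.pi_pos
  have hpi3 := Real.pi_gt_three
  have hpi4 := Real.pi_le_four
  have hc0 : 0 < Real.cos η := Real.cos_pos_of_mem_Ioo ⟨by linarith, hη1⟩
  have hc1 : Real.cos η < 1 := by
    have := Real.cos_lt_cos_of_nonneg_of_le_pi (x := 0) (y := η) le_rfl (by linarith) hη
    rwa [Real.cos_zero] at this
  set ξ := (1 - Real.cos η) / 2 with hξd
  have hξ : 0 < ξ := by rw [hξd]; linarith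
  have hξ1 : ξ ≤ 1 / 2 := by rw [hξd]; linarith
  set k : ℝ := ((K + 1 : ℕ) : ℝ) with hkd
  have hk1 : (1 : ℝ) ≤ k := by rw [hkd]; exact_mod_cast Nat.succ_le_succ (Nat.zero_le K)
  have hk0 : (0 : ℝ) < k := by linarith
  set σ := ξ ^ 2 / (8 * k) with hσd
  have hσ : 0 < σ := by positivity
  have hσ1 : σ ≤ 1 / 32 := by
    rw [hσd, div_le_iff₀ (by positivity)]
    exact sigma_aux ξ k hξ hξ1 hk1
  set ω := σ / (2 * k) with hωd
  have hω : 0 < ω := by positivity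
  have hkω : k * ω = σ / 2 := by rw [hωd]; field_simp
  have hωσ : ω ≤ σ / 2 := omega_aux ω σ k hω hk1 hkω
  set δ₀ := ξ * σ / (8 * k) with hδ₀d
  have hδ₀ : 0 < δ₀ := by positivity
  have hδ₀1 : δ₀ ≤ 1 / 10 := by
    rw [hδ₀d, div_le_iff₀ (by positivity)]
    exact delta_aux ξ σ k hξ1 hσ hσ1 hk1
  set C := 128 * k / σ with hCd
  have hC : 0 < C := by positivity
  refine ⟨{x | 0 < x ∧ x < Real.pi / 2 ∧ |Real.cos x - (1 - σ)| < ω}, δ₀, σ / 2, C, ξ, ?_, ?_, ?_, hδ₀, hδ₀1,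
    by positivity, hC, hξ, ?_⟩
  · apply IsOpen.inter (isOpen_lt continuous_const continuous_id)
    apply IsOpen.inter (isOpen_lt continuous_id continuous_const)
    exact isOpen_lt (f := fun x : ℝ => |Real.cos x - (1 - σ)|) (by fun_prop) continuous_const
  · refine ⟨Real.arccos (1 - σ), ?_, ?_, ?_⟩
    · exact Real.arccos_pos.2 (by linarith)
    · exact Real.arccos_lt_pi_div_two.2 (by linarith)
    · rw [Real.cos_arccos (by linarith) (by linarith), sub_self, abs_zero]; exact hω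
  · rintro x ⟨h1, h2, _⟩
    exact ⟨h1, h2⟩
  intro β hβ τ hτ tP tP' htP htP' b b' hb hb' κ hκ hκξ hbb
  set G : Matrix (Fin (K + 1)) (Fin (K + 1)) ℝ := fun i j => if i = j then 1 else Real.cos (β s(i, j)) with hG
  have hd : ∀ i, G i i = 1 := fun i => by simp [hG]
  have hGβ : ∀ i j, i ≠ j → G i j = Real.cos (β s(i, j)) := fun i j h => by simp [hG, h]
  have ho : ∀ i j, i ≠ j → |G i j - (1 - σ)| ≤ ω := by
    intro i j h
    rw [hGβ i j h]
    exact (hβ s(i, j) (by rwa [Sym2.mk_isDiag_iff])).2.2.le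
  have hs : ∀ i j, G i j = G j i := by
    intro i j
    by_cases h : i = j
    · rw [h]
    · rw [hGβ i j h, hGβ j i (Ne.symm h), Sym2.eq_swap]
  obtain ⟨F⟩ := exists_frame G σ ω hσ (by linarith) hω.le (le_of_eq hkω) hd hs ho
  have hfn : ∀ i, ‖F.f i‖ = 1 := by
    intro i
    have := F.hff i i
    rw [real_inner_self_eq_norm_sq, hd] at this
    exact norm_one_of_sq _ this
  have hf0 : ∀ i, F.f i ≠ 0 := fun i h => by
    have := hfn i
    rw [h] at this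
    simp at this
  -- the directions of P, P'
  have hcosb : ∀ x : ℝ, |x - Real.pi / 2| < δ₀ → |Real.cos x| ≤ δ₀ := by
    intro x hx
    have := Real.abs_cos_sub_cos_le x (Real.pi / 2)
    rw [Real.cos_pi_div_two, sub_zero] at this
    exact this.trans hx.le
  have hsmall : k * δ₀ ^ 2 ≤ σ / 2 * (ξ / 4) ^ 2 := by
    have h1 : k * δ₀ ^ 2 = σ * ξ ^ 2 * (σ / (64 * k)) := by rw [hδ₀d]; field_simp; ring
    rw [h1]
    have h2 : σ / (64 * k) ≤ 1 / 32 := by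
      rw [div_le_iff₀ (by positivity)]
      linarith
    calc σ * ξ ^ 2 * (σ / (64 * k)) ≤ σ * ξ ^ 2 * (1 / 32) := by gcongr
      _ = σ / 2 * (ξ / 4) ^ 2 := by ring
  obtain ⟨y, hy⟩ := F.solve hσ (fun i => Real.cos (b i))
  obtain ⟨y', hy'⟩ := F.solve hσ (fun i => Real.cos (b' i))
  have hny : ‖F.comb y‖ ≤ ξ / 4 := F.small hσ y δ₀ (ξ / 4) (by positivity)
    (fun i => by rw [hy]; exact hcosb _ (hb i)) hsmall
  have hny' : ‖F.comb y'‖ ≤ ξ / 4 := F.small hσ y' δ₀ (ξ / 4) (by positivity)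
    (fun i => by rw [hy']; exact hcosb _ (hb' i)) hsmall
  have hdiff : ‖F.comb y - F.comb y'‖ ≤ κ / (4 * Real.pi) := by
    rw [← F.comb_sub]
    refine F.small hσ _ (κ / C) (κ / (4 * Real.pi)) (by positivity) (fun i => ?_) ?_
    · rw [F.comb_sub, inner_sub_left, hy, hy']
      refine (Real.abs_cos_sub_cos_le _ _).trans ?_
      rw [le_div_iff₀ hC, mul_comm]
      exact hbb i
    · rw [hCd]
      have h1 : k * (κ / (128 * k / σ)) ^ 2 = κ ^ 2 * σ * (σ / (16384 * k)) := by field_simp; ring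
      have h2 : σ / 2 * (κ / (4 * Real.pi)) ^ 2 = κ ^ 2 * σ * (1 / (32 * Real.pi ^ 2)) := by field_simp; ring
      change k * (κ / (128 * k / σ)) ^ 2 ≤ _
      rw [h1, h2]
      apply mul_le_mul_of_nonneg_left _ (by positivity)
      rw [div_le_div_iff₀ (by positivity) (by positivity)]
      exact num_aux σ k hσ1 hk1
  set u := F.up y with hu
  set u' := F.up y' with hu'
  have hun : ‖u‖ = 1 := F.norm_up y (by linarith)
  have hun' : ‖u'‖ = 1 := F.norm_up y' (by linarith)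
  have huf : ∀ i, ⟪u, F.f i⟫_ℝ = Real.cos (b i) := fun i => by rw [hu, F.up_inner_f, hy]
  have huf' : ∀ i, ⟪u', F.f i⟫_ℝ = Real.cos (b' i) := fun i => by rw [hu', F.up_inner_f, hy']
  have huu : 2 * Real.pi * ‖u' - u‖ ≤ κ := by
    have h1 := F.norm_up_sub y y' (by linarith) (by linarith)
    rw [← hu, ← hu'] at h1
    rw [norm_sub_rev]
    calc 2 * Real.pi * ‖u - u'‖ ≤ 2 * Real.pi * (2 * (κ / (4 * Real.pi))) := by
          gcongr
          exact h1.trans (by gcongr)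
      _ = κ := by field_simp; ring
  -- radii
  have hbpos : ∀ x : ℝ, |x - Real.pi / 2| < δ₀ → 0 < x ∧ x < Real.pi / 2 + 1 / 10 := by
    intro x hx
    obtain ⟨h1, h2⟩ := abs_lt.1 hx
    constructor <;> linarith
  set r : Fin (K + 1) → ℝ := Fin.cons 1 (fun j => Real.sin (τ j) / Real.sin (τ j + β s(0, j.succ))) with hr
  have hr0 : r 0 = 1 := rfl
  have hrs : ∀ j : Fin K, r j.succ = Real.sin (τ j) / Real.sin (τ j + β s(0, j.succ)) := fun j => rfl
  have hlaw : ∀ j : Fin K, 0 < r j.succ ∧ angle (r j.succ • F.f j.succ - F.f 0) (-F.f 0) = τ j ∧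
      r j.succ • F.f j.succ ≠ F.f 0 := by
    intro j
    rw [hrs]
    have h1 : (0 : Fin (K + 1)) ≠ j.succ := (Fin.succ_ne_zero j).symm
    have h2 := hβ s(0, j.succ) (by rwa [Sym2.mk_isDiag_iff])
    refine law (F.f 0) (F.f j.succ) (hfn 0) (hfn _) (β s(0, j.succ)) (τ j) h2.1 (by linarith [(hτ j).1]) ?_ ?_
    · linarith [h2.2.1, (hτ j).2]
    · rw [F.hff, hGβ _ _ h1]
  have hrpos : ∀ i, 0 < r i := by
    intro i
    refine Fin.cases ?_ (fun j => ?_) i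
    · rw [hr0]; norm_num
    · exact (hlaw j).1
  set p := Real.sin tP / Real.sin (tP + b 0) with hp
  set p' := Real.sin tP' / Real.sin (tP' + b' 0) with hp'
  have hinu : ⟪F.f 0, u⟫_ℝ = Real.cos (b 0) := by rw [real_inner_comm]; exact huf 0
  have hinu' : ⟪F.f 0, u'⟫_ℝ = Real.cos (b' 0) := by rw [real_inner_comm]; exact huf' 0
  have hlP := law (F.f 0) u (hfn 0) hun (b 0) tP (hbpos _ (hb 0)).1 (by linarith [htP.1])
    (by linarith [htP.2, (hbpos _ (hb 0)).2]) hinu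
  have hlP' := law (F.f 0) u' (hfn 0) hun' (b' 0) tP' (hbpos _ (hb' 0)).1 (by linarith [htP'.1])
    (by linarith [htP'.2, (hbpos _ (hb' 0)).2]) hinu'
  rw [← hp] at hlP
  rw [← hp'] at hlP'
  have hpb : p ≤ 0.21 := p_bound tP (b 0) htP ((hb 0).trans_le hδ₀1)
  have hpb' : 0.65 ≤ p' := p'_bound tP' (b' 0) htP' ((hb' 0).trans_le hδ₀1)
  have hpp : 2 * p ≤ p' := by linarith
  -- the points
  set pF : Fin (K + 1) → Sp (K + 1) := fun i => r i • F.f i with hpF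
  have hpF0 : pF 0 = F.f 0 := by simp [hpF, hr0]
  have hpFne : ∀ i, pF i ≠ 0 := fun i => smul_ne_zero (hrpos i).ne' (hf0 i)
  have hu0 : u ≠ 0 := by intro h; rw [h] at hun; simp at hun
  have hu0' : u' ≠ 0 := by intro h; rw [h] at hun'; simp at hun'
  set S₀ : Finset (Sp (K + 1)) := (insert 0 (insert (p • u) {p' • u'})) ∪ (Finset.univ.image pF) with hS₀
  have m0 : (0 : Sp (K + 1)) ∈ (S₀ : Set (Sp (K + 1))) := by simp [hS₀]
  have mP : p • u ∈ (S₀ : Set (Sp (K + 1))) := by simp [hS₀]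
  have mP' : p' • u' ∈ (S₀ : Set (Sp (K + 1))) := by simp [hS₀]
  have mF : ∀ i, pF i ∈ (S₀ : Set (Sp (K + 1))) := fun i => by simp [hS₀]
  have hang : ∀ i, RealIn (S₀ : Set (Sp (K + 1))) (b i) := by
    intro i
    refine ⟨p • u, mP, 0, m0, pF i, mF i, smul_ne_zero hlP.1.ne' hu0, hpFne i, ?_⟩
    rw [sub_zero, sub_zero]
    exact angle_of_inner u (F.f i) hun (hfn i) (b i) (hbpos _ (hb i)).1.le (by linarith [(hbpos _ (hb i)).2])
      (huf i) _ _ hlP.1 (hrpos i)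
  refine ⟨S₀, ?_, ?_, ?_, ?_, ?_, hang, ?_, ?_⟩
  · refine (Finset.card_union_le _ _).trans ?_
    have h1 : (insert 0 (insert (p • u) ({p' • u'} : Finset (Sp (K + 1))))).card ≤ 3 := by
      refine (Finset.card_insert_le _ _).trans ?_
      have := Finset.card_insert_le (p • u) ({p' • u'} : Finset (Sp (K + 1)))
      rw [Finset.card_singleton] at this
      omega
    have h2 : (Finset.univ.image pF).card ≤ K + 1 := by
      refine Finset.card_image_le.trans ?_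
      simp
    omega
  · intro s
    induction s using Sym2.inductionOn with
    | hf i j =>
      intro hsd
      rw [Sym2.mk_isDiag_iff] at hsd
      have h2 := hβ s(i, j) (by rwa [Sym2.mk_isDiag_iff])
      refine ⟨pF i, mF i, 0, m0, pF j, mF j, hpFne i, hpFne j, ?_⟩
      rw [sub_zero, sub_zero]
      exact angle_of_inner _ _ (hfn i) (hfn j) _ h2.1.le (by linarith [h2.2.1]) (by rw [F.hff, hGβ i j hsd]) _ _
        (hrpos i) (hrpos j)
  · intro j
    refine ⟨pF j.succ, mF _, pF 0, mF 0, 0, m0, ?_, (hpFne 0).symm, ?_⟩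
    · rw [hpF0]; exact (hlaw j).2.2
    · rw [hpF0, zero_sub]; exact (hlaw j).2.1
  · refine ⟨p • u, mP, pF 0, mF 0, 0, m0, ?_, (hpFne 0).symm, ?_⟩
    · rw [hpF0]; exact hlP.2.2
    · rw [hpF0, zero_sub]; exact hlP.2.1
  · refine ⟨p' • u', mP', pF 0, mF 0, 0, m0, ?_, (hpFne 0).symm, ?_⟩
    · rw [hpF0]; exact hlP'.2.2
    · rw [hpF0, zero_sub]; exact hlP'.2.1
  · intro i
    refine ⟨p' • u', mP', 0, m0, pF i, mF i, smul_ne_zero hlP'.1.ne' hu0', hpFne i, ?_⟩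
    rw [sub_zero, sub_zero]
    exact angle_of_inner u' (F.f i) hun' (hfn i) (b' i) (hbpos _ (hb' i)).1.le
      (by linarith [(hbpos _ (hb' i)).2]) (huf' i) _ _ hlP'.1 (hrpos i)
  intro γ θ hγ hγγ hθ hθκ
  have hcγ : ∀ i, |Real.cos (γ i)| ≤ 1 - 2 * ξ := by
    intro i
    have e : 1 - 2 * ξ = Real.cos η := by rw [hξd]; ring
    rw [e, abs_le]
    constructor
    · rw [← Real.cos_pi_sub]
      exact Real.cos_le_cos_of_nonneg_of_le_pi (by linarith [(hγ i).1]) (by linarith) (hγ i).2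
    · exact Real.cos_le_cos_of_nonneg_of_le_pi hη.le (by linarith [(hγ i).2]) (hγ i).1
  obtain ⟨z, hz, hzf⟩ := F.direction 0 hd ξ hξ hξ1 hσd (fun i hi => (ho 0 i (Ne.symm hi)).trans hωσ)
    (fun i => Real.cos (γ i)) hcγ (fun i j => (Real.abs_cos_sub_cos_le _ _).trans (hγγ i j))
  set w := F.up z with hw
  have hwn : ‖w‖ = 1 := F.norm_up z (by linarith)
  have hwf : ∀ i, ⟪w, F.f i⟫_ℝ = Real.cos (γ i) := fun i => by rw [hw, F.up_inner_f, hzf]
  have hwu : ξ / 2 ≤ ⟪w, u⟫_ℝ := F.inner_ge ξ hξ hξ1 z y hz hny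
  by_cases hcase : w = u
  · have hγb : ∀ i, γ i = b i := by
      intro i
      have h1 : Real.cos (γ i) = Real.cos (b i) := by rw [← hwf, ← huf, hcase]
      exact Real.injOn_cos ⟨by linarith [(hγ i).1], by linarith [(hγ i).2]⟩
        ⟨(hbpos _ (hb i)).1.le, by linarith [(hbpos _ (hb i)).2]⟩ h1
    set X : Sp (K + 1) := Real.cos θ • F.f 0 + Real.sin θ • F.e with hX
    have hXn : ‖X‖ = 1 := by
      have h1 : ‖X‖ ^ 2 = 1 := by
        rw [hX, @norm_add_sq_real, norm_smul, norm_smul, hfn, F.he, inner_smul_left, inner_smul_right,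
          real_inner_comm, F.hef]
        simp
      exact norm_one_of_sq _ h1
    have hXf : ⟪X, F.f 0⟫_ℝ = Real.cos θ := by
      rw [hX, inner_add_left, inner_smul_left, inner_smul_left, F.hef, real_inner_self_eq_norm_sq, hfn]
      simp
    refine ⟨X, fun i => ?_, ?_⟩
    · rw [hγb i]
      exact (hang i).mono (Set.subset_insert _ _)
    · have hX0 : X ≠ 0 := by intro h; rw [h] at hXn; simp at hXn
      refine ⟨X, Set.mem_insert _ _, 0, Set.mem_insert_of_mem _ m0, pF 0, Set.mem_insert_of_mem _ (mF 0), hX0,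
        hpFne 0, ?_⟩
      rw [sub_zero, sub_zero]
      have := angle_of_inner X (F.f 0) hXn (hfn 0) θ hθ.le (by linarith) hXf 1 (r 0) one_pos (hrpos 0)
      rwa [one_smul] at this
  · have hPP : p' • u' ≠ p • u := by
      intro h
      have h1 := congrArg norm h
      rw [norm_smul, norm_smul, hun, hun', Real.norm_eq_abs, Real.norm_eq_abs, abs_of_pos hlP.1,
        abs_of_pos hlP'.1] at h1
      linarith [hlP.1]
    obtain ⟨t, ht, hne, hor⟩ := new_point w u u' hwn hun p p' hlP.1 hpp (ξ / 2) κ (by positivity) hwu huu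
      (by linarith) hcase θ hθ hθκ hPP
    have hw0 : w ≠ 0 := by intro h; rw [h] at hwn; simp at hwn
    refine ⟨t • w, fun i => ?_, ?_⟩
    · refine ⟨t • w, Set.mem_insert _ _, 0, Set.mem_insert_of_mem _ m0, pF i, Set.mem_insert_of_mem _ (mF i),
        smul_ne_zero ht.ne' hw0, hpFne i, ?_⟩
      rw [sub_zero, sub_zero]
      exact angle_of_inner w (F.f i) hwn (hfn i) (γ i) (by linarith [(hγ i).1]) (by linarith [(hγ i).2])
        (hwf i) _ _ ht (hrpos i)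
    · rcases hor with h | h
      · refine ⟨t • w, Set.mem_insert _ _, p • u, Set.mem_insert_of_mem _ mP, 0, Set.mem_insert_of_mem _ m0, hne,
          (smul_ne_zero hlP.1.ne' hu0).symm, ?_⟩
        rw [zero_sub]; exact h
      · exact ⟨t • w, Set.mem_insert _ _, p • u, Set.mem_insert_of_mem _ mP, p' • u', Set.mem_insert_of_mem _ mP',
          hne, hPP, h⟩

end Pool.Agent.K7.H61.RA
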