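import Pool.Agent.K7.H61.RA.Roles
import Pool.Agent.K7.H61.RA.Base

set_option autoImplicit false

/-! # Grouping the samples, and the union bounds -/

namespace Pool.Agent.K7.H61.RA

open MeasureTheory Set ProbabilityTheory Filter Topology
open scoped ENNReal

theorem groups {ι : Type*} [DecidableEq ι] (typ : Finset ι) (col : ι → ℕ) (Q k : ℕ) (hk : 0 < k)
    (hcol : ∀ x ∈ typ, col x < Q) (M : ℕ) (hM : k * M + k * Q ≤ typ.card) :
    ∃ 𝒞 : Finset (Finset ι), 𝒞.card = M ∧ (∀ C ∈ 𝒞, C ⊆ typ ∧ C.card = k ∧ ∀ x ∈ C, ∀ y ∈ C, col x = col y) ∧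
      (𝒞 : Set (Finset ι)).PairwiseDisjoint id := by
  induction M with
  | zero => exact ⟨∅, rfl, by simp, by simp⟩
  | succ M ih =>
    obtain ⟨𝒞, h1, h2, h3⟩ := ih (by
      have : k * (M + 1) = k * M + k := by ring
      omega)
    set U := 𝒞.biUnion id with hU
    have hUc : U.card ≤ k * M := by
      rw [hU]
      calc (𝒞.biUnion id).card ≤ 𝒞.card * k := Finset.card_biUnion_le_card_mul _ _ _ fun C hC => (h2 C hC).2.1.le
        _ = k * M := by rw [h1, mul_comm]
    have h4 : k + k * Q ≤ (typ \ U).card := by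
      have h5 := Finset.le_card_sdiff U typ
      have : k * (M + 1) = k * M + k := by ring
      omega
    have hne : (typ \ U).Nonempty := by
      rw [← Finset.card_pos]; omega
    obtain ⟨x0, hx0⟩ := hne
    have hQ : 0 < Q := (Nat.zero_le _).trans_lt (hcol x0 (Finset.mem_sdiff.1 hx0).1)
    obtain ⟨y, hy, hyc⟩ := Finset.exists_le_card_fiber_of_mul_le_card_of_maps_to (s := typ \ U)
      (t := Finset.range Q) (f := col) (n := k)
      (fun x hx => Finset.mem_range.2 (hcol x (Finset.mem_sdiff.1 hx).1)) ⟨0, Finset.mem_range.2 hQ⟩ (by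
        rw [Finset.card_range, mul_comm]; omega)
    obtain ⟨C, hC1, hC2⟩ := Finset.exists_subset_card_eq hyc
    have hCsub : ∀ x ∈ C, x ∈ typ ∧ x ∉ U ∧ col x = y := by
      intro x hx
      have := hC1 hx
      rw [Finset.mem_filter, Finset.mem_sdiff] at this
      exact ⟨this.1.1, this.1.2, this.2⟩
    have hdis : ∀ D ∈ 𝒞, Disjoint C D := by
      intro D hD
      rw [Finset.disjoint_left]
      intro x hx hxD
      exact (hCsub x hx).2.1 (Finset.mem_biUnion.2 ⟨D, hD, hxD⟩)
    have hCn : C ∉ 𝒞 := by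
      intro hC
      have h6 := hdis C hC
      rw [disjoint_self, Finset.bot_eq_empty] at h6
      rw [h6, Finset.card_empty] at hC2
      omega
    refine ⟨insert C 𝒞, by rw [Finset.card_insert_of_notMem hCn, h1], ?_, ?_⟩
    · intro D hD
      rw [Finset.mem_insert] at hD
      rcases hD with rfl | hD
      · exact ⟨fun x hx => (hCsub x hx).1, hC2, fun x hx y hy => by
          rw [(hCsub x hx).2.2, (hCsub y hy).2.2]⟩
      · exact h2 D hD
    · rw [Finset.coe_insert, Set.pairwiseDisjoint_insert]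
      exact ⟨h3, fun D hD _ => hdis D hD⟩

theorem eval_measure {N : ℕ} (i : Fin N) (s : Set ℝ) (hs : MeasurableSet s) :
    Measure.pi (fun _ : Fin N => unif) {ω | ω i ∈ s} = unif s :=
  (measurePreserving_eval (fun _ : Fin N => unif) i).measure_preimage hs.nullMeasurableSet

theorem range_bad (N : ℕ) (κ : ℝ) :
    Measure.pi (fun _ : Fin N => unif) {ω | ¬ ∀ i, 0 < ω i ∧ ω i < Real.pi - κ} ≤
      ENNReal.ofReal (N * κ / Real.pi) := by
  set s : Set ℝ := (Ioo 0 (Real.pi - κ))ᶜ with hs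
  have h1 : {ω : Fin N → ℝ | ¬ ∀ i, 0 < ω i ∧ ω i < Real.pi - κ} ⊆ ⋃ i, {ω | ω i ∈ s} := by
    intro ω hω
    rw [mem_ofPred_eq] at hω
    push Not at hω
    obtain ⟨i, hi⟩ := hω
    rw [mem_iUnion]
    refine ⟨i, ?_⟩
    rintro ⟨h2, h3⟩
    exact absurd h3 (not_lt.2 (hi h2))
  have hu : unif s ≤ ENNReal.ofReal (κ / Real.pi) := by
    apply unif_le
    have h2 : Ioo 0 Real.pi ∩ s ⊆ Ico (Real.pi - κ) Real.pi := by
      rintro x ⟨hx1, hx2⟩
      refine ⟨?_, hx1.2⟩
      by_contra hcon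
      push Not at hcon
      exact hx2 ⟨hx1.1, hcon⟩
    refine (measure_mono h2).trans ?_
    rw [Real.volume_Ico]
    apply ENNReal.ofReal_le_ofReal
    linarith
  refine (measure_mono h1).trans ((measure_iUnion_fintype_le _ _).trans ?_)
  calc ∑ i : Fin N, Measure.pi (fun _ : Fin N => unif) {ω | ω i ∈ s} ≤ ∑ _i : Fin N, ENNReal.ofReal (κ / Real.pi) := by
        refine Finset.sum_le_sum fun i _ => ?_
        rw [eval_measure i s measurableSet_Ioo.compl]
        exact hu
    _ = ENNReal.ofReal (N * κ / Real.pi) := by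
      rw [Finset.sum_const, Finset.card_univ, Fintype.card_fin, nsmul_eq_mul, ← ENNReal.ofReal_natCast,
        ← ENNReal.ofReal_mul (Nat.cast_nonneg _)]
      congr 1
      ring

open Classical in
theorem count_bad (N A : ℕ) (η : ℝ) (hη : 0 < η) :
    (A : ℝ≥0∞) * Measure.pi (fun _ : Fin N => unif)
      {ω | A ≤ (Finset.univ.filter (fun i => ω i ∉ Icc η (Real.pi - η))).card} ≤
      ENNReal.ofReal (N * (2 * η) / Real.pi) := by
  set s : Set ℝ := (Icc η (Real.pi - η))ᶜ with hs
  have hsm : MeasurableSet s := measurableSet_Icc.compl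
  have hu : unif s ≤ ENNReal.ofReal (2 * η / Real.pi) := by
    apply unif_le
    have h2 : Ioo 0 Real.pi ∩ s ⊆ Ico 0 η ∪ Ioc (Real.pi - η) Real.pi := by
      rintro x ⟨hx1, hx2⟩
      by_cases h : x < η
      · exact Or.inl ⟨hx1.1.le, h⟩
      · right
        refine ⟨?_, hx1.2.le⟩
        by_contra hcon
        push Not at hcon h
        exact hx2 ⟨h, hcon⟩
    refine (measure_mono h2).trans ((measure_union_le _ _).trans ?_)
    rw [Real.volume_Ico, Real.volume_Ioc, ← ENNReal.ofReal_add (by linarith) (by linarith)]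
    apply ENNReal.ofReal_le_ofReal
    linarith
  set f : (Fin N → ℝ) → ℝ≥0∞ := fun ω => ∑ i, s.indicator (fun _ => (1 : ℝ≥0∞)) (ω i) with hf
  have hfm : Measurable f := by
    refine Finset.measurable_sum _ fun i _ => ?_
    exact (measurable_const.indicator hsm).comp (measurable_pi_apply i)
  have hfc : ∀ ω, f ω = ((Finset.univ.filter (fun i => ω i ∉ Icc η (Real.pi - η))).card : ℝ≥0∞) := by
    intro ω
    rw [hf]
    simp only
    rw [Finset.card_filter, Nat.cast_sum]
    refine Finset.sum_congr rfl fun i _ => ?_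
    by_cases h : ω i ∈ Icc η (Real.pi - η)
    · simp [hs, Set.indicator, h]
    · simp [hs, Set.indicator, h]
  have h1 := mul_meas_ge_le_lintegral₀ (μ := Measure.pi (fun _ : Fin N => unif)) hfm.aemeasurable (A : ℝ≥0∞)
  have h2 : {ω : Fin N → ℝ | A ≤ (Finset.univ.filter (fun i => ω i ∉ Icc η (Real.pi - η))).card} =
      {ω | (A : ℝ≥0∞) ≤ f ω} := by
    ext ω
    rw [mem_ofPred_eq, mem_ofPred_eq, hfc]
    exact Nat.cast_le.symm
  rw [h2]
  refine h1.trans ?_
  have hlf : ∫⁻ ω, f ω ∂(Measure.pi (fun _ : Fin N => unif)) =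
      ∑ i : Fin N, ∫⁻ ω, s.indicator (fun _ => (1 : ℝ≥0∞)) (ω i) ∂(Measure.pi (fun _ : Fin N => unif)) := by
    have hmi : ∀ i ∈ (Finset.univ : Finset (Fin N)),
        Measurable (fun ω : Fin N → ℝ => s.indicator (fun _ => (1 : ℝ≥0∞)) (ω i)) :=
      fun i _ => (measurable_const.indicator hsm).comp (measurable_pi_apply i)
    exact lintegral_finsetSum Finset.univ hmi
  rw [hlf]
  have h3 : ∀ i : Fin N, ∫⁻ ω, s.indicator (fun _ => (1 : ℝ≥0∞)) (ω i) ∂(Measure.pi (fun _ : Fin N => unif)) = unif s := by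
    intro i
    have h4 : (fun ω : Fin N → ℝ => s.indicator (fun _ => (1 : ℝ≥0∞)) (ω i)) =
        ({ω : Fin N → ℝ | ω i ∈ s}).indicator (fun _ => (1 : ℝ≥0∞)) := by
      ext ω
      simp [Set.indicator]
    have h5 : MeasurableSet {ω : Fin N → ℝ | ω i ∈ s} := (measurable_pi_apply i) hsm
    rw [h4, lintegral_indicator h5, lintegral_const, Measure.restrict_apply_univ, one_mul, eval_measure i s hsm]
  calc ∑ i : Fin N, ∫⁻ ω, s.indicator (fun _ => (1 : ℝ≥0∞)) (ω i) ∂(Measure.pi (fun _ : Fin N => unif))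
      = ∑ _i : Fin N, unif s := Finset.sum_congr rfl fun i _ => h3 i
    _ ≤ ∑ _i : Fin N, ENNReal.ofReal (2 * η / Real.pi) := Finset.sum_le_sum fun i _ => hu
    _ = ENNReal.ofReal (N * (2 * η) / Real.pi) := by
      rw [Finset.sum_const, Finset.card_univ, Fintype.card_fin, nsmul_eq_mul, ← ENNReal.ofReal_natCast,
        ← ENNReal.ofReal_mul (Nat.cast_nonneg _)]
      congr 1
      ring

end Pool.Agent.K7.H61.RA
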