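import Pool.Agent.K7.H61.RA.Comb

set_option autoImplicit false

/-! # Assembly -/

namespace Pool.Agent.K7.H61.RA

open MeasureTheory Set ProbabilityTheory Filter Topology
open scoped ENNReal

open Classical in
theorem assemble {V : Type*} [NormedAddCommGroup V] [InnerProductSpace ℝ V] (K : ℕ) (S₀ : Finset V)
    (η δ κ : ℝ) (hδ : 0 < δ)
    (hext : ∀ (γ : Fin (K + 1) → ℝ) (θ : ℝ), (∀ i, γ i ∈ Icc η (Real.pi - η)) → (∀ i j, |γ i - γ j| ≤ δ) →
      0 < θ → θ < Real.pi - κ → ∃ X : V, (∀ i, RealIn (insert X (S₀ : Set V)) (γ i)) ∧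
        RealIn (insert X (S₀ : Set V)) θ)
    {ι : Type} [Fintype ι] (ω : ι → ℝ) (T : Finset ι) (M A Q : ℕ) (hT : T.card = (K + 2) * M)
    (hbad : (T.filter (fun i => ω i ∉ Icc η (Real.pi - η))).card ≤ A) (hAQ : A + (K + 1) * Q ≤ M)
    (hQ : Real.pi / δ < Q) (hω : ∀ i ∈ T, 0 < ω i ∧ ω i < Real.pi - κ)
    (hκ : 0 < κ) (hS₀ : ∀ i, i ∉ T → RealIn (S₀ : Set V) (ω i)) :
    ∃ S : Finset V, S.card ≤ S₀.card + M ∧ ∀ i, RealIn (S : Set V) (ω i) := by
  set typ := T.filter (fun i => ω i ∈ Icc η (Real.pi - η)) with htyp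
  have htc : typ.card + (T.filter (fun i => ω i ∉ Icc η (Real.pi - η))).card = T.card :=
    Finset.card_filter_add_card_filter_not _
  set col : ι → ℕ := fun i => ⌊ω i / δ⌋₊ with hcol
  have hcolQ : ∀ x ∈ typ, col x < Q := by
    intro x hx
    rw [htyp, Finset.mem_filter] at hx
    have h1 := hω x hx.1
    rw [hcol]
    simp only
    rw [Nat.floor_lt (div_nonneg h1.1.le hδ.le)]
    refine lt_trans ?_ hQ
    gcongr
    linarith
  have hcard : (K + 1) * M + (K + 1) * Q ≤ typ.card := by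
    have : (K + 2) * M = (K + 1) * M + M := by ring
    omega
  obtain ⟨𝒞, hC1, hC2, hC3⟩ := groups typ col Q (K + 1) (Nat.succ_pos K) hcolQ M hcard
  set U := 𝒞.biUnion id with hU
  have hUT : U ⊆ T := by
    intro x hx
    rw [hU, Finset.mem_biUnion] at hx
    obtain ⟨C, hC, hx⟩ := hx
    exact (Finset.filter_subset _ _) ((hC2 C hC).1 hx)
  have hUc : U.card = (K + 1) * M := by
    rw [hU, Finset.card_biUnion (fun x hx y hy hxy => hC3 hx hy hxy)]
    have hs1 : ∑ u ∈ 𝒞, (id u).card = 𝒞.card * (K + 1) :=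
      Finset.sum_const_nat (f := fun u : Finset ι => (id u).card) (fun C hC => (hC2 C hC).2.1)
    rw [hs1, hC1, mul_comm]
  have hLf : (T \ U).card = M := by
    rw [Finset.card_sdiff_of_subset hUT, hT, hUc]
    have : (K + 2) * M = (K + 1) * M + M := by ring
    omega
  have e : {x // x ∈ 𝒞} ≃ {x // x ∈ T \ U} := Finset.equivOfCardEq (hC1.trans hLf.symm)
  have hen : ∀ C : {x // x ∈ 𝒞}, Nonempty ({x // x ∈ C.1} ≃ Fin (K + 1)) := fun C =>
    ⟨Finset.equivFinOfCardEq (hC2 C.1 C.2).2.1⟩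
  obtain ⟨en⟩ : Nonempty (∀ C : {x // x ∈ 𝒞}, {x // x ∈ C.1} ≃ Fin (K + 1)) := ⟨fun C => (hen C).some⟩
  have hX : ∀ C : {x // x ∈ 𝒞}, ∃ X : V, (∀ i : Fin (K + 1), RealIn (insert X (S₀ : Set V)) (ω ((en C).symm i).1)) ∧
      RealIn (insert X (S₀ : Set V)) (ω (e C).1) := by
    intro C
    apply hext
    · intro i
      have h1 := (hC2 C.1 C.2).1 ((en C).symm i).2
      rw [htyp, Finset.mem_filter] at h1
      exact h1.2
    · intro i j
      have h1 := (hC2 C.1 C.2).2.2 _ ((en C).symm i).2 _ ((en C).symm j).2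
      have hi := (hC2 C.1 C.2).1 ((en C).symm i).2
      have hj := (hC2 C.1 C.2).1 ((en C).symm j).2
      rw [htyp, Finset.mem_filter] at hi hj
      have pi' := (hω _ hi.1).1
      have pj' := (hω _ hj.1).1
      set a := ω ((en C).symm i).1
      set b := ω ((en C).symm j).1
      have h2 : ⌊a / δ⌋₊ = ⌊b / δ⌋₊ := h1
      have ha1 := Nat.floor_le (div_nonneg pi'.le hδ.le)
      have ha2 := Nat.lt_floor_add_one (a / δ)
      have hb1 := Nat.floor_le (div_nonneg pj'.le hδ.le)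
      have hb2 := Nat.lt_floor_add_one (b / δ)
      rw [h2] at ha1 ha2
      have h3 : |a / δ - b / δ| ≤ 1 := by
        rw [abs_le]
        constructor <;> linarith
      have h4 : |a - b| = |a / δ - b / δ| * δ := by
        rw [← sub_div, abs_div, abs_of_pos hδ]
        field_simp
      rw [h4]
      nlinarith
    · exact (hω _ (Finset.mem_sdiff.1 (e C).2).1).1
    · exact (hω _ (Finset.mem_sdiff.1 (e C).2).1).2
  choose X hX1 hX2 using hX
  refine ⟨S₀ ∪ Finset.univ.image X, ?_, ?_⟩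
  · refine (Finset.card_union_le _ _).trans ?_
    have h1 : (Finset.univ.image X).card ≤ M := by
      refine Finset.card_image_le.trans ?_
      rw [Finset.card_univ, Fintype.card_coe, hC1]
    omega
  · intro i
    have hsub : ∀ C, insert (X C) (S₀ : Set V) ⊆ ((S₀ ∪ Finset.univ.image X : Finset V) : Set V) := by
      intro C x hx
      rw [Set.mem_insert_iff] at hx
      rw [Finset.coe_union, Set.mem_union]
      rcases hx with rfl | hx
      · right
        simp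
      · exact Or.inl hx
    by_cases hi : i ∈ T
    · by_cases hiU : i ∈ U
      · rw [hU, Finset.mem_biUnion] at hiU
        obtain ⟨C, hC, hiC⟩ := hiU
        have h1 := hX1 ⟨C, hC⟩ (en ⟨C, hC⟩ ⟨i, hiC⟩)
        rw [Equiv.symm_apply_apply] at h1
        exact h1.mono (hsub _)
      · have h2 : i ∈ T \ U := Finset.mem_sdiff.2 ⟨hi, hiU⟩
        have h1 := hX2 (e.symm ⟨i, h2⟩)
        rw [Equiv.apply_symm_apply] at h1
        exact h1.mono (hsub _)
    · refine (hS₀ i hi).mono ?_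
      rw [Finset.coe_union]
      exact Set.subset_union_left

/-- the roles of single samples in the base configuration -/
abbrev JJ (K : ℕ) := {s : Sym2 (Fin (K + 1)) // ¬ s.IsDiag} ⊕ (Fin K ⊕ (Unit ⊕ Unit))

/-- their windows -/
def WW (K : ℕ) (W : Set ℝ) : JJ K → Set ℝ :=
  Sum.elim (fun _ => W) (Sum.elim (fun _ => Ioo (1 / 4 : ℝ) (1 / 2))
    (Sum.elim (fun _ => Ioo (0.1 : ℝ) 0.2) (fun _ => Ioo (0.9 : ℝ) 1)))

theorem card_JJ (K : ℕ) : Fintype.card (JJ K) = (K + 1).choose 2 + K + 2 := by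
  classical
  rw [Fintype.card_sum, Fintype.card_sum, Fintype.card_sum, Fintype.card_fin, Fintype.card_unit,
    Sym2.card_subtype_not_diag, Fintype.card_fin]
  ring

theorem choose_rel (K : ℕ) : (K + 3).choose 2 = (K + 1).choose 2 + 2 * K + 3 := by
  rw [Nat.choose_succ_succ' (K + 2) 1, Nat.choose_succ_succ' (K + 1) 1]
  simp
  ring

theorem choose_two' (K : ℕ) : 2 * (K + 1).choose 2 = (K + 1) * K := by
  have := Nat.triangle_succ K
  rw [Nat.choose_two_right]
  have h : 2 ∣ (K + 1) * (K + 1 - 1) := by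
    rw [Nat.add_sub_cancel]
    have := Nat.even_mul_succ_self K
    rw [mul_comm] at this
    exact this.two_dvd
  rw [Nat.mul_div_cancel' h, Nat.add_sub_cancel]

set_option maxHeartbeats 1000000 in
/-- the main estimate -/
theorem main (K : ℕ) (ρ : ℝ) (hρ : 0 < ρ) : ∃ m₀ : ℕ, ∀ m ≥ m₀,
    Measure.pi (fun _ : Fin ((K + 2) * m - (K + 3).choose 2 - 1) => unif)
      {ω | ¬ ∃ S : Finset (Sp (K + 1)), S.card ≤ m ∧ ∀ i, RealIn (S : Set (Sp (K + 1))) (ω i)} ≤
      ENNReal.ofReal ρ := by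
  classical
  have hpi := Real.pi_pos
  have hpi3 := Real.pi_gt_three
  set ρ' := min ρ 1 with hρ'
  have hρ'0 : 0 < ρ' := lt_min hρ one_pos
  have hρ'1 : ρ' ≤ 1 := min_le_right _ _
  have hρ'2 : ρ' ≤ ρ := min_le_left _ _
  set η := ρ' * Real.pi / (12 * (K + 3)) with hη
  have hK3 : (0 : ℝ) < K + 3 := by positivity
  have hη0 : 0 < η := by positivity
  have hη1 : η < Real.pi / 2 := by
    rw [hη, div_lt_iff₀ (by positivity)]
    have : (0 : ℝ) ≤ K := Nat.cast_nonneg K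
    nlinarith
  obtain ⟨W, δ₀, δ, C, ι, hWo, hWn, hWs, hδ₀, hδ₀1, hδ, hC, hι, hbase⟩ := base K η hη0 hη1
  set c := ρ' * Real.pi / 3 with hc
  have hc0 : 0 < c := by positivity
  have hWW : ∀ j : JJ K, IsOpen (WW K W j) ∧ (WW K W j).Nonempty ∧ WW K W j ⊆ Ioo 0 Real.pi := by
    rintro (j | j | j | j)
    · exact ⟨hWo, hWn, fun x hx => ⟨(hWs hx).1, (hWs hx).2.trans (by linarith)⟩⟩
    · exact ⟨isOpen_Ioo, nonempty_Ioo.2 (by norm_num), fun x hx => ⟨lt_trans (by norm_num) hx.1,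
        lt_trans hx.2 (by linarith)⟩⟩
    · exact ⟨isOpen_Ioo, nonempty_Ioo.2 (by norm_num), fun x hx => ⟨lt_trans (by norm_num) hx.1,
        lt_trans hx.2 (by linarith)⟩⟩
    · exact ⟨isOpen_Ioo, nonempty_Ioo.2 (by norm_num), fun x hx => ⟨lt_trans (by norm_num) hx.1,
        lt_trans hx.2 (by linarith)⟩⟩
  obtain ⟨N₁, hN₁⟩ := roles (JJ K) (WW K W) hWW (K + 1) (Nat.succ_pos K) (Real.pi / 2 - δ₀) (Real.pi / 2 + δ₀)
    (by linarith) (by linarith) (by linarith) (c / C) (ρ' / 3) (by positivity) (by positivity)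
  obtain ⟨Q, hQ⟩ := exists_nat_gt (Real.pi / δ)
  obtain ⟨N₂, hN₂⟩ := exists_nat_gt (c / ι)
  refine ⟨K + 4 + (N₁ + N₂ + 2 * (K + 1) * Q + 10 * (K + 2) ^ 2 + 2), fun m hm => ?_⟩
  obtain ⟨M, rfl⟩ : ∃ M, m = K + 4 + M := ⟨m - (K + 4), by omega⟩
  have hM : N₁ + N₂ + 2 * (K + 1) * Q + 10 * (K + 2) ^ 2 + 2 ≤ M := by omega
  have hNval : (K + 2) * (K + 4 + M) - (K + 3).choose 2 - 1 = (K + 2) * M + ((K + 1).choose 2 + 3 * K + 4) := by
    rw [choose_rel]
    have h1 := choose_two' K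
    have h2 : (K + 2) * (K + 4 + M) = (K + 2) * M + (K * K + 6 * K + 8) := by ring
    have h3 : (K + 1) * K = K * K + K := by ring
    omega
  set N := (K + 2) * (K + 4 + M) - (K + 3).choose 2 - 1 with hN
  have hMN : M ≤ N := by
    rw [hNval]
    have : (K + 2) * M = (K + 1) * M + M := by ring
    omega
  have hNM : N ≤ (K + 3) * M := by
    rw [hNval]
    have h1 := choose_two' K
    have h2 : (K + 3) * M = (K + 2) * M + M := by ring
    have h3 : 10 * (K + 2) ^ 2 = 10 * (K * K) + 40 * K + 40 := by ring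
    have h4 : (K + 1) * K = K * K + K := by ring
    have h5 : 0 ≤ 2 * (K + 1) * Q := Nat.zero_le _
    omega
  have hN0 : (0 : ℝ) < N := by exact_mod_cast (by omega : 0 < N)
  set A := M / 2 with hA
  set κ := c / N with hκ
  have hκ0 : 0 < κ := by positivity
  have hκι : κ < ι := by
    have e1 : c / ι < N := hN₂.trans_le (by exact_mod_cast (by omega : N₂ ≤ N))
    rw [hκ, div_lt_iff₀ hN0]
    rw [div_lt_iff₀ hι] at e1
    linarith
  set μ := Measure.pi (fun _ : Fin N => unif) with hμ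
  set E1 : Set (Fin N → ℝ) := {ω | ¬ ∀ i, 0 < ω i ∧ ω i < Real.pi - κ} with hE1
  set E2 : Set (Fin N → ℝ) := {ω | ¬ ∃ r : JJ K ⊕ (Fin (K + 1) ⊕ Fin (K + 1)) → Fin N, Function.Injective r ∧
      (∀ j, ω (r (Sum.inl j)) ∈ WW K W j) ∧
      (∀ i, ω (r (Sum.inr (Sum.inl i))) ∈ Ioo (Real.pi / 2 - δ₀) (Real.pi / 2 + δ₀) ∧
        ω (r (Sum.inr (Sum.inr i))) ∈ Ioo (Real.pi / 2 - δ₀) (Real.pi / 2 + δ₀) ∧
        |ω (r (Sum.inr (Sum.inl i))) - ω (r (Sum.inr (Sum.inr i)))| < c / C / N)} with hE2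
  set E3 : Set (Fin N → ℝ) := {ω | A + 1 ≤ (Finset.univ.filter (fun i => ω i ∉ Icc η (Real.pi - η))).card}
    with hE3
  have hsub : {ω : Fin N → ℝ | ¬ ∃ S : Finset (Sp (K + 1)), S.card ≤ K + 4 + M ∧
      ∀ i, RealIn (S : Set (Sp (K + 1))) (ω i)} ⊆ E1 ∪ (E2 ∪ E3) := by
    intro ω hω
    by_contra hcon
    apply hω
    rw [mem_union, mem_union, not_or, not_or] at hcon
    obtain ⟨h1, h2, h3⟩ := hcon
    rw [hE1, mem_ofPred_eq, not_not] at h1
    rw [hE2, mem_ofPred_eq, not_not] at h2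
    rw [hE3, mem_ofPred_eq, not_le] at h3
    obtain ⟨r, hr1, hr2, hr3⟩ := h2
    set β : Sym2 (Fin (K + 1)) → ℝ := fun s => if h : ¬ s.IsDiag then ω (r (Sum.inl (Sum.inl ⟨s, h⟩))) else 0
      with hβ
    have hβ' : ∀ (s : Sym2 (Fin (K + 1))) (h : ¬ s.IsDiag), β s = ω (r (Sum.inl (Sum.inl ⟨s, h⟩))) := by
      intro s h
      rw [hβ]
      simp only
      rw [dif_pos h]
    have hwin : ∀ x : ℝ, x ∈ Ioo (Real.pi / 2 - δ₀) (Real.pi / 2 + δ₀) → |x - Real.pi / 2| < δ₀ := by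
      intro x hx
      rw [abs_lt]
      exact ⟨by linarith [hx.1], by linarith [hx.2]⟩
    obtain ⟨S₀, hS0, hS1, hS2, hS3, hS4, hS5, hS6, hext⟩ := hbase β
      (fun s hs => by rw [hβ' s hs]; exact hr2 (Sum.inl ⟨s, hs⟩))
      (fun j => ω (r (Sum.inl (Sum.inr (Sum.inl j))))) (fun j => hr2 (Sum.inr (Sum.inl j)))
      (ω (r (Sum.inl (Sum.inr (Sum.inr (Sum.inl ()))))))
      (ω (r (Sum.inl (Sum.inr (Sum.inr (Sum.inr ())))))) (hr2 (Sum.inr (Sum.inr (Sum.inl ()))))
      (hr2 (Sum.inr (Sum.inr (Sum.inr ()))))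
      (fun i => ω (r (Sum.inr (Sum.inl i)))) (fun i => ω (r (Sum.inr (Sum.inr i))))
      (fun i => hwin _ (hr3 i).1) (fun i => hwin _ (hr3 i).2.1) κ hκ0 hκι (fun i => by
        have e1 := (hr3 i).2.2
        have e2 : κ = C * (c / C / N) := by rw [hκ]; field_simp
        rw [e2]
        exact mul_le_mul_of_nonneg_left e1.le hC.le)
    set T : Finset (Fin N) := Finset.univ \ Finset.univ.image r with hT
    have hTc : T.card = (K + 2) * M := by
      have e1 : Fintype.card (JJ K ⊕ (Fin (K + 1) ⊕ Fin (K + 1))) =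
          ((K + 1).choose 2 + K + 2) + ((K + 1) + (K + 1)) := by
        rw [Fintype.card_sum, card_JJ, Fintype.card_sum, Fintype.card_fin]
      rw [hT, Finset.card_sdiff_of_subset (Finset.subset_univ _), Finset.card_image_of_injective _ hr1,
        Finset.card_univ, Finset.card_univ, Fintype.card_fin, e1, hNval]
      omega
    obtain ⟨S, hSc, hS⟩ := assemble K S₀ η δ κ hδ hext ω T M A Q hTc (by
        refine le_trans (Finset.card_le_card ?_) (Nat.lt_succ_iff.1 h3)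
        exact Finset.filter_subset_filter _ (Finset.subset_univ _)) (by
        have e1 : 2 * (K + 1) * Q = 2 * ((K + 1) * Q) := by ring
        omega) hQ (fun i _ => h1 i) hκ0 (by
        intro i hi
        rw [hT, Finset.mem_sdiff, not_and, not_not] at hi
        have h4 := hi (Finset.mem_univ _)
        rw [Finset.mem_image] at h4
        obtain ⟨x, _, rfl⟩ := h4
        rcases x with (⟨s, hs⟩ | j | j | j) | x | x
        · have := hS1 s hs
          rwa [hβ' s hs] at this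
        · exact hS2 j
        · exact hS3
        · exact hS4
        · exact hS5 x
        · exact hS6 x)
    exact ⟨S, hSc.trans (by omega), hS⟩
  have hm1 : μ E1 ≤ ENNReal.ofReal (ρ' / 3) := by
    refine (range_bad N κ).trans (ENNReal.ofReal_le_ofReal (le_of_eq ?_))
    rw [hκ, hc]
    field_simp
  have hm2 : μ E2 ≤ ENNReal.ofReal (ρ' / 3) := hN₁ N (by omega)
  have hm3 : μ E3 ≤ ENNReal.ofReal (ρ' / 3) := by
    have h1 := count_bad N (A + 1) η hη0
    have h2 : (N * (2 * η) / Real.pi : ℝ) ≤ (A + 1 : ℕ) * (ρ' / 3) := by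
      have e1 : (N : ℝ) ≤ (K + 3) * M := by exact_mod_cast hNM
      have e2 : (M : ℝ) ≤ 2 * (A + 1 : ℕ) := by exact_mod_cast (by omega : M ≤ 2 * (A + 1))
      have e3 : (N : ℝ) * (2 * η) / Real.pi = N * (ρ' / (6 * (K + 3))) := by
        rw [hη]
        field_simp
        ring
      rw [e3]
      calc (N : ℝ) * (ρ' / (6 * (K + 3))) ≤ ((K + 3) * M) * (ρ' / (6 * (K + 3))) := by gcongr
        _ = M * (ρ' / 6) := by field_simp
        _ ≤ (2 * (A + 1 : ℕ)) * (ρ' / 6) := by gcongr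
        _ = (A + 1 : ℕ) * (ρ' / 3) := by ring
    have h3 : ((A + 1 : ℕ) : ℝ≥0∞) * μ E3 ≤ ((A + 1 : ℕ) : ℝ≥0∞) * ENNReal.ofReal (ρ' / 3) := by
      refine h1.trans ?_
      rw [← ENNReal.ofReal_natCast (A + 1), ← ENNReal.ofReal_mul (Nat.cast_nonneg _)]
      exact ENNReal.ofReal_le_ofReal h2
    exact (ENNReal.mul_le_mul_iff_right (by simp) (ENNReal.natCast_ne_top _)).1 h3
  calc μ _ ≤ μ (E1 ∪ (E2 ∪ E3)) := measure_mono hsub
    _ ≤ μ E1 + (μ E2 + μ E3) := (measure_union_le _ _).trans (add_le_add le_rfl (measure_union_le _ _))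
    _ ≤ ENNReal.ofReal (ρ' / 3) + (ENNReal.ofReal (ρ' / 3) + ENNReal.ofReal (ρ' / 3)) :=
      add_le_add hm1 (add_le_add hm2 hm3)
    _ = ENNReal.ofReal ρ' := by
      rw [← ENNReal.ofReal_add (by positivity) (by positivity), ← ENNReal.ofReal_add (by positivity) (by positivity)]
      congr 1
      ring
    _ ≤ ENNReal.ofReal ρ := ENNReal.ofReal_le_ofReal hρ'2

end Pool.Agent.K7.H61.RA
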