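import Pool.Agent.K7.H61.RA.Gram

set_option autoImplicit false

/-! # Unit vectors with prescribed inner products with a frame -/

namespace Pool.Agent.K7.H61.RA

open Finset Matrix
open scoped InnerProductSpace

namespace Frame

variable {k : ℕ} {σ : ℝ} {G : Matrix (Fin k) (Fin k) ℝ} (F : Frame k σ G)

/-- linear combinations -/
noncomputable def comb (y : Fin k → ℝ) : Sp k := ∑ i, y i • F.f i

theorem comb_sub (y z : Fin k → ℝ) : F.comb (y - z) = F.comb y - F.comb z := by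
  unfold comb
  rw [← Finset.sum_sub_distrib]
  exact Finset.sum_congr rfl fun i _ => by rw [Pi.sub_apply, sub_smul]

theorem bound (hσ : 0 < σ) (y : Fin k → ℝ) : σ / 2 * ‖F.comb y‖ ^ 2 ≤ ∑ i, ⟪F.comb y, F.f i⟫_ℝ ^ 2 := by
  have h1 : ‖F.comb y‖ ^ 2 = ∑ i, y i * ⟪F.comb y, F.f i⟫_ℝ := by
    rw [← real_inner_self_eq_norm_sq]
    conv_lhs => rw [comb]
    rw [sum_inner]
    refine Finset.sum_congr rfl fun i _ => ?_
    rw [inner_smul_left, real_inner_comm]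
    simp [comb]
  have h2 : (∑ i, y i * ⟪F.comb y, F.f i⟫_ℝ) ^ 2 ≤ (∑ i, y i ^ 2) * ∑ i, ⟪F.comb y, F.f i⟫_ℝ ^ 2 :=
    Finset.sum_mul_sq_le_sq_mul_sq _ _ _
  have h3 := F.low y
  change σ / 2 * ∑ i, y i ^ 2 ≤ ‖F.comb y‖ ^ 2 at h3
  rw [← h1] at h2
  set a := ‖F.comb y‖ ^ 2 with ha
  set b := ∑ i, ⟪F.comb y, F.f i⟫_ℝ ^ 2 with hb
  set c := ∑ i, y i ^ 2 with hc
  have ha0 : 0 ≤ a := sq_nonneg _
  have hb0 : 0 ≤ b := Finset.sum_nonneg fun i _ => sq_nonneg _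
  by_cases h : a = 0
  · rw [h]; simpa using hb0
  · have h5 : 0 < a := lt_of_le_of_ne ha0 (Ne.symm h)
    have h6 : σ / 2 * a ^ 2 ≤ a * b := by
      calc σ / 2 * a ^ 2 ≤ σ / 2 * (c * b) := by gcongr
        _ = (σ / 2 * c) * b := by ring
        _ ≤ a * b := by gcongr
    nlinarith

theorem solve (hσ : 0 < σ) (s : Fin k → ℝ) : ∃ y : Fin k → ℝ, ∀ i, ⟪F.comb y, F.f i⟫_ℝ = s i := by
  let T : (Fin k → ℝ) →ₗ[ℝ] (Fin k → ℝ) :=
    { toFun := fun y i => ⟪F.comb y, F.f i⟫_ℝ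
      map_add' := fun y z => by
        ext i
        simp [comb, add_smul, Finset.sum_add_distrib, inner_add_left]
      map_smul' := fun r y => by
        ext i
        simp only [comb, Pi.smul_apply, smul_eq_mul, RingHom.id_apply, sum_inner, inner_smul_left]
        rw [Finset.mul_sum]
        refine Finset.sum_congr rfl fun j _ => ?_
        simp
        ring }
  have hinj : Function.Injective T := by
    rw [← LinearMap.ker_eq_bot, LinearMap.ker_eq_bot']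
    intro y hy
    have h1 := F.bound hσ y
    have h2 : ∀ i, ⟪F.comb y, F.f i⟫_ℝ = 0 := fun i => congrFun hy i
    simp only [h2] at h1
    have h3 : ‖F.comb y‖ ^ 2 ≤ 0 := by
      have : σ / 2 * ‖F.comb y‖ ^ 2 ≤ 0 := by simpa using h1
      by_contra hcon
      push Not at hcon
      nlinarith
    have h4 := F.low y
    change σ / 2 * ∑ i, y i ^ 2 ≤ ‖F.comb y‖ ^ 2 at h4
    have h5 : ∑ i, y i ^ 2 ≤ 0 := by
      by_contra hcon
      push Not at hcon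
      nlinarith
    have h6 : ∑ i, y i ^ 2 = 0 := le_antisymm h5 (Finset.sum_nonneg fun i _ => sq_nonneg _)
    rw [Finset.sum_eq_zero_iff_of_nonneg (fun i _ => sq_nonneg _)] at h6
    ext i
    have := h6 i (mem_univ i)
    simpa using this
  obtain ⟨y, hy⟩ := (LinearMap.injective_iff_surjective.1 hinj) s
  exact ⟨y, fun i => congrFun hy i⟩

theorem e_comb (y : Fin k → ℝ) : ⟪F.e, F.comb y⟫_ℝ = 0 := by
  unfold comb
  rw [inner_sum]
  refine Finset.sum_eq_zero fun i _ => ?_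
  rw [inner_smul_right, F.hef, mul_zero]

/-- lift of a vector of the span to the unit sphere -/
noncomputable def up (y : Fin k → ℝ) : Sp k := F.comb y + √(1 - ‖F.comb y‖ ^ 2) • F.e

theorem up_inner_f (y : Fin k → ℝ) (i : Fin k) : ⟪F.up y, F.f i⟫_ℝ = ⟪F.comb y, F.f i⟫_ℝ := by
  unfold up
  rw [inner_add_left, inner_smul_left, F.hef]
  simp

theorem up_inner_up (y z : Fin k → ℝ) : ⟪F.up y, F.up z⟫_ℝ =
    ⟪F.comb y, F.comb z⟫_ℝ + √(1 - ‖F.comb y‖ ^ 2) * √(1 - ‖F.comb z‖ ^ 2) := by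
  have he : ⟪F.comb y, F.e⟫_ℝ = 0 := by rw [real_inner_comm]; exact F.e_comb y
  unfold up
  rw [inner_add_left, inner_add_right, inner_add_right, inner_smul_left, inner_smul_right, inner_smul_left,
    inner_smul_right, F.e_comb, he, real_inner_self_eq_norm_sq, F.he]
  simp

theorem norm_up (y : Fin k → ℝ) (hy : ‖F.comb y‖ ≤ 1) : ‖F.up y‖ = 1 := by
  have h1 := F.up_inner_up y y
  rw [real_inner_self_eq_norm_sq, real_inner_self_eq_norm_sq, Real.mul_self_sqrt (by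
    nlinarith [norm_nonneg (F.comb y)])] at h1
  have h2 : ‖F.up y‖ ^ 2 = 1 := by rw [h1]; ring
  nlinarith [norm_nonneg (F.up y)]

theorem norm_up_sub (y z : Fin k → ℝ) (hy : ‖F.comb y‖ ≤ 1 / 4) (hz : ‖F.comb z‖ ≤ 1 / 4) :
    ‖F.up y - F.up z‖ ≤ 2 * ‖F.comb y - F.comb z‖ := by
  have h1 : F.up y - F.up z = (F.comb y - F.comb z) + (√(1 - ‖F.comb y‖ ^ 2) - √(1 - ‖F.comb z‖ ^ 2)) • F.e := by
    unfold up
    rw [sub_smul]
    abel
  rw [h1]
  refine (norm_add_le _ _).trans ?_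
  rw [norm_smul, F.he, mul_one, Real.norm_eq_abs]
  have h2 : |√(1 - ‖F.comb y‖ ^ 2) - √(1 - ‖F.comb z‖ ^ 2)| ≤ ‖F.comb y - F.comb z‖ := by
    have h3 := abs_norm_sub_norm_le (F.comb y) (F.comb z)
    set a := ‖F.comb y‖ with ha
    set b := ‖F.comb z‖ with hb
    have ha0 : 0 ≤ a := norm_nonneg _
    have hb0 : 0 ≤ b := norm_nonneg _
    set p := √(1 - a ^ 2) with hp
    set q := √(1 - b ^ 2) with hq
    have hp1 : p ^ 2 = 1 - a ^ 2 := Real.sq_sqrt (by nlinarith)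
    have hq1 : q ^ 2 = 1 - b ^ 2 := Real.sq_sqrt (by nlinarith)
    have hp2 : 1 / 2 ≤ p := by
      apply Real.le_sqrt_of_sq_le
      nlinarith
    have hq2 : 1 / 2 ≤ q := by
      apply Real.le_sqrt_of_sq_le
      nlinarith
    have h4 : (p - q) * (p + q) = (b - a) * (b + a) := by nlinarith
    have h5 : |p - q| * (p + q) = |a - b| * (a + b) := by
      have := congrArg abs h4
      rw [abs_mul, abs_mul, abs_of_nonneg (by linarith : 0 ≤ p + q), abs_of_nonneg (by linarith : 0 ≤ b + a),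
        abs_sub_comm b a] at this
      rw [this]; ring
    have h6 : |p - q| ≤ |a - b| := by
      nlinarith [abs_nonneg (p - q), abs_nonneg (a - b)]
    exact h6.trans h3
  linarith

end Frame

/-- bound for a combination with small inner products -/
theorem Frame.small {k : ℕ} {σ : ℝ} {G : Matrix (Fin k) (Fin k) ℝ} (F : Frame k σ G) (hσ : 0 < σ)
    (y : Fin k → ℝ) (t : ℝ) (r : ℝ) (hr : 0 ≤ r) (h : ∀ i, |⟪F.comb y, F.f i⟫_ℝ| ≤ t)
    (htr : k * t ^ 2 ≤ σ / 2 * r ^ 2) : ‖F.comb y‖ ≤ r := by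
  have h1 := F.bound hσ y
  have h2 : ∑ i, ⟪F.comb y, F.f i⟫_ℝ ^ 2 ≤ k * t ^ 2 := by
    calc ∑ i, ⟪F.comb y, F.f i⟫_ℝ ^ 2 ≤ ∑ _i : Fin k, t ^ 2 := by
          refine Finset.sum_le_sum fun i _ => ?_
          rw [← sq_abs]
          exact pow_le_pow_left₀ (abs_nonneg _) (h i) 2
      _ = k * t ^ 2 := by simp
  have h3 : ‖F.comb y‖ ^ 2 ≤ r ^ 2 := by
    by_contra hcon
    push Not at hcon
    nlinarith
  exact abs_le_of_sq_le_sq' h3 hr |>.2

/-- the direction of a new point -/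
theorem Frame.direction {k : ℕ} {σ : ℝ} {G : Matrix (Fin k) (Fin k) ℝ} (F : Frame k σ G) (i₀ : Fin k)
    (hd : ∀ i, G i i = 1) (ξ : ℝ) (hξ : 0 < ξ) (hξ1 : ξ ≤ 1 / 2) (hσ : σ = ξ ^ 2 / (8 * k))
    (ho : ∀ i, i ≠ i₀ → |G i₀ i - (1 - σ)| ≤ σ / 2)
    (c : Fin k → ℝ) (hc : ∀ i, |c i| ≤ 1 - 2 * ξ) (hcc : ∀ i j, |c i - c j| ≤ σ / 2) :
    ∃ y : Fin k → ℝ, ‖F.comb y‖ ≤ 1 - ξ ∧ ∀ i, ⟪F.comb y, F.f i⟫_ℝ = c i := by
  have hk : 0 < k := Nat.pos_of_ne_zero (by rintro rfl; exact i₀.elim0)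
  have hk' : (0 : ℝ) < k := by exact_mod_cast hk
  have hσ0 : 0 < σ := by rw [hσ]; positivity
  obtain ⟨y, hy⟩ := F.solve hσ0 c
  refine ⟨y, ?_, hy⟩
  set y0 : Fin k → ℝ := Pi.single i₀ (c i₀) with hy0
  have h0 : F.comb y0 = c i₀ • F.f i₀ := by
    unfold Frame.comb
    rw [Finset.sum_eq_single i₀]
    · rw [hy0, Pi.single_eq_same]
    · intro j _ hj
      rw [hy0, Pi.single_eq_of_ne hj, zero_smul]
    · intro h; exact absurd (mem_univ _) h
  have hfn : ‖F.f i₀‖ = 1 := by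
    have := F.hff i₀ i₀
    rw [real_inner_self_eq_norm_sq, hd] at this
    nlinarith [norm_nonneg (F.f i₀)]
  have h1 : ‖F.comb (y - y0)‖ ≤ ξ := by
    refine F.small hσ0 _ (2 * σ) ξ hξ.le (fun i => ?_) ?_
    · rw [F.comb_sub, inner_sub_left, hy, h0, inner_smul_left, F.hff]
      simp only [conj_trivial]
      by_cases hi : i = i₀
      · rw [hi, hd]; simp; positivity
      · have e1 : c i - c i₀ * G i₀ i = (c i - c i₀) + c i₀ * (1 - G i₀ i) := by ring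
        rw [e1]
        have e2 := hcc i i₀
        have e3 := ho i hi
        have e4 : |1 - G i₀ i| ≤ σ + σ / 2 := by
          rw [abs_le] at e3 ⊢
          constructor <;> linarith [e3.1, e3.2]
        have e5 : |c i₀| ≤ 1 := (hc i₀).trans (by linarith)
        calc |(c i - c i₀) + c i₀ * (1 - G i₀ i)| ≤ |c i - c i₀| + |c i₀ * (1 - G i₀ i)| := abs_add_le _ _
          _ ≤ σ / 2 + 1 * (σ + σ / 2) := by
            rw [abs_mul]
            gcongr
          _ = 2 * σ := by ring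
    · rw [hσ]
      field_simp
      ring_nf
      rfl
  have h2 : F.comb y = F.comb y0 + F.comb (y - y0) := by
    rw [F.comb_sub]; abel
  rw [h2]
  refine (norm_add_le _ _).trans ?_
  rw [h0, norm_smul, hfn, Real.norm_eq_abs]
  have := hc i₀
  linarith

theorem Frame.inner_ge {k : ℕ} {σ : ℝ} {G : Matrix (Fin k) (Fin k) ℝ} (F : Frame k σ G)
    (ξ : ℝ) (hξ : 0 < ξ) (hξ1 : ξ ≤ 1 / 2) (y z : Fin k → ℝ) (hy : ‖F.comb y‖ ≤ 1 - ξ)
    (hz : ‖F.comb z‖ ≤ ξ / 4) : ξ / 2 ≤ ⟪F.up y, F.up z⟫_ℝ := by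
  rw [F.up_inner_up]
  have h1 : |⟪F.comb y, F.comb z⟫_ℝ| ≤ 1 * (ξ / 4) := by
    refine (abs_real_inner_le_norm _ _).trans ?_
    gcongr
    linarith
  have h2 : ξ ≤ √(1 - ‖F.comb y‖ ^ 2) := by
    apply Real.le_sqrt_of_sq_le
    nlinarith [norm_nonneg (F.comb y)]
  have h3 : 3 / 4 ≤ √(1 - ‖F.comb z‖ ^ 2) := by
    apply Real.le_sqrt_of_sq_le
    nlinarith [norm_nonneg (F.comb z)]
  have h4 : ξ * (3 / 4) ≤ √(1 - ‖F.comb y‖ ^ 2) * √(1 - ‖F.comb z‖ ^ 2) := by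
    gcongr
  have h5 := neg_abs_le (⟪F.comb y, F.comb z⟫_ℝ)
  linarith

end Pool.Agent.K7.H61.RA
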