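import Mathlib

set_option autoImplicit false

/-! # Vectors with prescribed Gram matrix near the all-ones matrix -/

namespace Pool.Agent.K7.H61.RA

open Finset Matrix
open scoped InnerProductSpace ComplexOrder MatrixOrder

/-- ambient space -/
abbrev Sp (k : ℕ) := EuclideanSpace ℝ (Fin (k + 1))

theorem gram_exists {k : ℕ} (G : Matrix (Fin k) (Fin k) ℝ) (hG : G.PosSemidef) :
    ∃ (f : Fin k → Sp k) (e : Sp k), ‖e‖ = 1 ∧ (∀ i, ⟪e, f i⟫_ℝ = 0) ∧ ∀ i j, ⟪f i, f j⟫_ℝ = G i j := by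
  obtain ⟨B, rfl⟩ := CStarAlgebra.nonneg_iff_eq_star_mul_self.mp hG.nonneg
  refine ⟨fun i => WithLp.toLp 2 (Fin.snoc (fun l => B l i) 0 : Fin (k + 1) → ℝ),
    EuclideanSpace.single (Fin.last k) (1 : ℝ), by simp, fun i => ?_, fun i j => ?_⟩
  · rw [EuclideanSpace.inner_single_left]
    simp
  · rw [PiLp.inner_apply, Fin.sum_univ_castSucc]
    simp only [Fin.snoc_castSucc, Fin.snoc_last]
    rw [Matrix.star_eq_conjTranspose, Matrix.mul_apply]
    simp only [Matrix.conjTranspose_apply, star_trivial]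
    simp [mul_comm]

theorem quad_lower {k : ℕ} (G : Matrix (Fin k) (Fin k) ℝ) (σ ω : ℝ) (hσ1 : σ ≤ 1) (hω : 0 ≤ ω)
    (hkω : k * ω ≤ σ / 2) (hd : ∀ i, G i i = 1) (ho : ∀ i j, i ≠ j → |G i j - (1 - σ)| ≤ ω)
    (y : Fin k → ℝ) : σ / 2 * ∑ i, y i ^ 2 ≤ ∑ i, ∑ j, y i * G i j * y j := by
  have h1 : ∀ i j, (1 - σ) * (y i * y j) + (if i = j then σ * y i ^ 2 else 0) - ω * ((y i ^ 2 + y j ^ 2) / 2) ≤
      y i * G i j * y j := by
    intro i j
    by_cases h : i = j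
    · subst h
      rw [hd, if_pos rfl]
      nlinarith [sq_nonneg (y i)]
    · rw [if_neg h]
      have h2 := ho i j h
      have h3 : y i * G i j * y j = (1 - σ) * (y i * y j) + (G i j - (1 - σ)) * (y i * y j) := by ring
      rw [h3]
      have h4 : |(G i j - (1 - σ)) * (y i * y j)| ≤ ω * ((y i ^ 2 + y j ^ 2) / 2) := by
        rw [abs_mul]
        apply mul_le_mul h2 _ (abs_nonneg _) hω
        rw [abs_mul]
        nlinarith [sq_nonneg (|y i| - |y j|), sq_abs (y i), sq_abs (y j)]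
      have := neg_abs_le ((G i j - (1 - σ)) * (y i * y j))
      linarith
  have h2 : ∑ i, ∑ j, ((1 - σ) * (y i * y j) + (if i = j then σ * y i ^ 2 else 0) - ω * ((y i ^ 2 + y j ^ 2) / 2)) =
      (1 - σ) * (∑ i, y i) ^ 2 + σ * ∑ i, y i ^ 2 - ω * (k * ∑ i, y i ^ 2) := by
    simp only [Finset.sum_sub_distrib, Finset.sum_add_distrib, ← Finset.mul_sum, Finset.sum_ite_eq,
      Finset.mem_univ, if_true, ← Finset.sum_div, Finset.sum_const, Finset.card_univ, Fintype.card_fin,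
      nsmul_eq_mul]
    rw [sq (∑ i, y i), Finset.sum_mul]
    ring
  have h3 : ∑ i, ∑ j, ((1 - σ) * (y i * y j) + (if i = j then σ * y i ^ 2 else 0) - ω * ((y i ^ 2 + y j ^ 2) / 2)) ≤
      ∑ i, ∑ j, y i * G i j * y j := Finset.sum_le_sum fun i _ => Finset.sum_le_sum fun j _ => h1 i j
  rw [h2] at h3
  have h4 : 0 ≤ ∑ i, y i ^ 2 := Finset.sum_nonneg fun i _ => sq_nonneg _
  have h5 : 0 ≤ (1 - σ) * (∑ i, y i) ^ 2 := mul_nonneg (by linarith) (sq_nonneg _)
  nlinarith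

/-- the geometric data: near-parallel unit vectors and a common normal -/
structure Frame (k : ℕ) (σ : ℝ) (G : Matrix (Fin k) (Fin k) ℝ) where
  f : Fin k → Sp k
  e : Sp k
  he : ‖e‖ = 1
  hef : ∀ i, ⟪e, f i⟫_ℝ = 0
  hff : ∀ i j, ⟪f i, f j⟫_ℝ = G i j
  low : ∀ y : Fin k → ℝ, σ / 2 * ∑ i, y i ^ 2 ≤ ‖∑ i, y i • f i‖ ^ 2

theorem exists_frame {k : ℕ} (G : Matrix (Fin k) (Fin k) ℝ) (σ ω : ℝ) (hσ : 0 < σ) (hσ1 : σ ≤ 1) (hω : 0 ≤ ω)
    (hkω : k * ω ≤ σ / 2) (hd : ∀ i, G i i = 1) (hs : ∀ i j, G i j = G j i)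
    (ho : ∀ i j, i ≠ j → |G i j - (1 - σ)| ≤ ω) : Nonempty (Frame k σ G) := by
  have hq := quad_lower G σ ω hσ1 hω hkω hd ho
  have hG : G.PosSemidef := by
    refine .of_dotProduct_mulVec_nonneg ?_ fun x => ?_
    · ext i j
      simp [Matrix.conjTranspose_apply, hs i j]
    · have h1 := hq x
      have h2 : star x ⬝ᵥ (G *ᵥ x) = ∑ i, ∑ j, x i * G i j * x j := by
        simp only [dotProduct, mulVec, Pi.star_apply, star_trivial]
        refine Finset.sum_congr rfl fun i _ => ?_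
        rw [Finset.mul_sum]
        refine Finset.sum_congr rfl fun j _ => by ring
      rw [h2]
      refine le_trans ?_ h1
      have : 0 ≤ ∑ i, x i ^ 2 := Finset.sum_nonneg fun i _ => sq_nonneg _
      positivity
  obtain ⟨f, e, h1, h2, h3⟩ := gram_exists G hG
  refine ⟨⟨f, e, h1, h2, h3, fun y => ?_⟩⟩
  have h4 := hq y
  refine h4.trans (le_of_eq ?_)
  rw [← real_inner_self_eq_norm_sq, sum_inner]
  refine Finset.sum_congr rfl fun i _ => ?_
  rw [inner_sum]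
  refine Finset.sum_congr rfl fun j _ => ?_
  rw [inner_smul_left, inner_smul_right, h3]
  simp
  ring

end Pool.Agent.K7.H61.RA
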