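import Mathlib

set_option autoImplicit false

/-! # Uniform samples: hitting windows and near-coincidences -/

namespace Pool.Agent.K7.H61.RA

open MeasureTheory Set ProbabilityTheory
open scoped ENNReal

/-- the uniform distribution on `(0, π)` -/
noncomputable def unif : Measure ℝ := cond volume (Ioo 0 Real.pi)

theorem vol_pi : (volume (Ioo 0 Real.pi) : ℝ≥0∞) = ENNReal.ofReal Real.pi := by
  rw [Real.volume_Ioo, sub_zero]

instance : IsProbabilityMeasure unif := by
  unfold unif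
  apply cond_isProbabilityMeasure_of_finite
  · rw [vol_pi]; simp [Real.pi_pos]
  · rw [vol_pi]; simp

theorem unif_apply (s : Set ℝ) : unif s = (ENNReal.ofReal Real.pi)⁻¹ * volume (Ioo 0 Real.pi ∩ s) := by
  unfold unif
  rw [cond_apply measurableSet_Ioo, vol_pi]

theorem unif_of_subset (s : Set ℝ) (hs : s ⊆ Ioo 0 Real.pi) :
    unif s = (ENNReal.ofReal Real.pi)⁻¹ * volume s := by
  rw [unif_apply, inter_eq_self_of_subset_right hs]

theorem unif_pos (s : Set ℝ) (ho : IsOpen s) (hn : s.Nonempty) (hs : s ⊆ Ioo 0 Real.pi) : 0 < unif s := by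
  rw [unif_of_subset s hs]
  have h1 : 0 < volume s := ho.measure_pos volume hn
  have h2 : (ENNReal.ofReal Real.pi)⁻¹ ≠ 0 := ENNReal.inv_ne_zero.2 ENNReal.ofReal_ne_top
  exact pos_iff_ne_zero.2 (mul_ne_zero h2 h1.ne')

theorem unif_le (s : Set ℝ) (x : ℝ) (h : volume (Ioo 0 Real.pi ∩ s) ≤ ENNReal.ofReal x) :
    unif s ≤ ENNReal.ofReal (x / Real.pi) := by
  rw [unif_apply, div_eq_inv_mul, ENNReal.ofReal_mul (inv_nonneg.2 Real.pi_pos.le),
    ENNReal.ofReal_inv_of_pos Real.pi_pos]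
  gcongr

theorem pi_miss {ι : Type*} [Fintype ι] [DecidableEq ι] (S : Finset ι) (U : Set ℝ) (hU : MeasurableSet U) :
    Measure.pi (fun _ : ι => unif) {ω | ∀ i ∈ S, ω i ∉ U} = (1 - unif U) ^ S.card := by
  have h1 : {ω : ι → ℝ | ∀ i ∈ S, ω i ∉ U} = Set.pi univ (fun i => if i ∈ S then Uᶜ else univ) := by
    ext ω
    simp only [mem_ofPred_eq, mem_pi, mem_univ, true_implies]
    refine forall_congr' fun i => ?_
    by_cases h : i ∈ S
    · simp [h]
    · simp [h]
  rw [h1, Measure.pi_pi]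
  have h2 : ∀ i, unif (if i ∈ S then Uᶜ else univ) = if i ∈ S then (1 - unif U) else 1 := by
    intro i
    split_ifs
    · rw [prob_compl_eq_one_sub hU]
    · exact measure_univ
  simp only [h2]
  rw [Finset.prod_ite_mem, Finset.univ_inter, Finset.prod_const]

theorem pow_bound (q : ℝ) (hq : 0 ≤ q) (x : ℝ≥0∞) (hx : ENNReal.ofReal q ≤ x) (n : ℕ) :
    (1 - x) ^ n ≤ ENNReal.ofReal (Real.exp (-(q * n))) := by
  have h1 : (1 - x) ≤ ENNReal.ofReal (Real.exp (-q)) := by
    refine (tsub_le_tsub_left hx 1).trans ?_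
    rw [← ENNReal.ofReal_one, ← ENNReal.ofReal_sub _ hq]
    apply ENNReal.ofReal_le_ofReal
    have := Real.add_one_le_exp (-q)
    linarith
  calc (1 - x) ^ n ≤ (ENNReal.ofReal (Real.exp (-q))) ^ n := by gcongr
    _ = ENNReal.ofReal (Real.exp (-(q * n))) := by
      rw [← ENNReal.ofReal_pow (Real.exp_pos _).le, ← Real.exp_nat_mul]
      congr 2
      ring

/-- measure of a union of separated intervals -/
theorem union_lower (L : ℕ) (s0 h ε : ℝ) (hε : 0 < ε) (hεh : ε ≤ h) (hs0 : 0 ≤ s0)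
    (hs1 : s0 + 2 * h * L ≤ Real.pi) (x : Fin L → ℝ)
    (hx : ∀ r : Fin L, x r ∈ Ioo (s0 + 2 * h * r) (s0 + 2 * h * r + h)) :
    ENNReal.ofReal (L * ε / Real.pi) ≤ unif (⋃ r, Ioo (x r) (x r + ε)) := by
  have hh : 0 < h := by linarith
  have hsub : (⋃ r, Ioo (x r) (x r + ε)) ⊆ Ioo 0 Real.pi := by
    intro y hy
    rw [mem_iUnion] at hy
    obtain ⟨r, hr⟩ := hy
    have h1 := hx r
    have h2 : ((r : ℕ) : ℝ) + 1 ≤ L := by exact_mod_cast r.2
    have h3 : 0 ≤ 2 * h * (r : ℕ) := by positivity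
    have h4 : 2 * h * ((r : ℕ) : ℝ) + 2 * h ≤ 2 * h * L := by nlinarith
    constructor
    · linarith [hr.1, h1.1]
    · linarith [hr.2, h1.2]
  rw [unif_of_subset _ hsub]
  have hd : Pairwise (Function.onFun Disjoint fun r : Fin L => Ioo (x r) (x r + ε)) := by
    have key : ∀ r r' : Fin L, r < r' → Disjoint (Ioo (x r) (x r + ε)) (Ioo (x r') (x r' + ε)) := by
      intro r r' hlt
      rw [Set.disjoint_left]
      intro y hy hy'
      have h1 := hx r
      have h2 := hx r'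
      have h3 : ((r : ℕ) : ℝ) + 1 ≤ (r' : ℕ) := by exact_mod_cast hlt
      have h4 : 2 * h * ((r : ℕ) : ℝ) + 2 * h ≤ 2 * h * (r' : ℕ) := by nlinarith
      linarith [hy.2, hy'.1, h1.2, h2.1]
    intro r r' hne
    rcases lt_or_gt_of_ne hne with h1 | h1
    · exact key r r' h1
    · exact (key r' r h1).symm
  rw [measure_iUnion hd (fun r => measurableSet_Ioo)]
  have h5 : ∑' r : Fin L, volume (Ioo (x r) (x r + ε)) = ENNReal.ofReal (L * ε) := by
    rw [tsum_fintype]
    simp only [Real.volume_Ioo, add_sub_cancel_left, Finset.sum_const, Finset.card_univ, Fintype.card_fin,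
      nsmul_eq_mul]
    rw [ENNReal.ofReal_mul (by positivity), ENNReal.ofReal_natCast]
  rw [h5, div_eq_inv_mul, ENNReal.ofReal_mul (inv_nonneg.2 Real.pi_pos.le),
    ENNReal.ofReal_inv_of_pos Real.pi_pos]

/-- anchors present, but no near-coincidence of an anchor with a sample of `B` -/
theorem pair_miss {ι : Type*} [Fintype ι] [DecidableEq ι] (A B : Finset ι) (hAB : Disjoint A B) (L : ℕ)
    (s0 h ε : ℝ) (hε : 0 < ε) (hεh : ε ≤ h) (hs0 : 0 ≤ s0) (hs1 : s0 + 2 * h * L ≤ Real.pi) :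
    Measure.pi (fun _ : ι => unif) {ω | (∀ r : Fin L, ∃ a ∈ A, ω a ∈ Ioo (s0 + 2 * h * r) (s0 + 2 * h * r + h)) ∧
      ∀ a ∈ A, ∀ b ∈ B, ∀ r : Fin L, ω a ∈ Ioo (s0 + 2 * h * r) (s0 + 2 * h * r + h) →
        ¬ (ω a < ω b ∧ ω b < ω a + ε)} ≤ ENNReal.ofReal (Real.exp (-(L * ε / Real.pi * B.card))) := by
  set W : Fin L → Set ℝ := fun r => Ioo (s0 + 2 * h * r) (s0 + 2 * h * r + h) with hW
  set p : ι → Prop := fun i => i ∈ A with hp
  set T' : Set (({i // p i} → ℝ) × ({i // ¬ p i} → ℝ)) :=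
    {q | (∀ r : Fin L, ∃ a : {i // p i}, q.1 a ∈ W r) ∧
      ∀ a : {i // p i}, ∀ b : {i // ¬ p i}, ∀ r : Fin L, b.1 ∈ B → q.1 a ∈ W r →
        ¬ (q.1 a < q.2 b ∧ q.2 b < q.1 a + ε)} with hT'
  have hmp := measurePreserving_piEquivPiSubtypeProd (fun _ : ι => unif) p
  have hmeas : MeasurableSet T' := by
    have e1 : T' = (⋂ r : Fin L, ⋃ a : {i // p i}, {q | q.1 a ∈ W r}) ∩
        ⋂ a : {i // p i}, ⋂ b : {i // ¬ p i}, ⋂ r : Fin L,
          {q | b.1 ∈ B → q.1 a ∈ W r → ¬ (q.1 a < q.2 b ∧ q.2 b < q.1 a + ε)} := by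
      ext q
      simp only [hT', mem_ofPred_eq, mem_inter_iff, mem_iInter, mem_iUnion]
    rw [e1]
    apply MeasurableSet.inter
    · refine MeasurableSet.iInter fun r => MeasurableSet.iUnion fun a => ?_
      exact ((measurable_pi_apply a).comp measurable_fst) measurableSet_Ioo
    · refine MeasurableSet.iInter fun a => MeasurableSet.iInter fun b => MeasurableSet.iInter fun r => ?_
      have m1 : Measurable (fun q : ({i // p i} → ℝ) × ({i // ¬ p i} → ℝ) => q.1 a) :=
        (measurable_pi_apply a).comp measurable_fst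
      have m2 : Measurable (fun q : ({i // p i} → ℝ) × ({i // ¬ p i} → ℝ) => q.2 b) :=
        (measurable_pi_apply b).comp measurable_snd
      have m3 : MeasurableSet {q : ({i // p i} → ℝ) × ({i // ¬ p i} → ℝ) | q.1 a ∈ W r} := m1 measurableSet_Ioo
      have m4 : MeasurableSet {q : ({i // p i} → ℝ) × ({i // ¬ p i} → ℝ) |
          q.1 a < q.2 b ∧ q.2 b < q.1 a + ε} :=
        (measurableSet_lt m1 m2).inter (measurableSet_lt m2 (m1.add_const ε))
      by_cases hb : b.1 ∈ B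
      · have e2 : {q : ({i // p i} → ℝ) × ({i // ¬ p i} → ℝ) |
            b.1 ∈ B → q.1 a ∈ W r → ¬ (q.1 a < q.2 b ∧ q.2 b < q.1 a + ε)} =
            {q | q.1 a ∈ W r}ᶜ ∪ {q | q.1 a < q.2 b ∧ q.2 b < q.1 a + ε}ᶜ := by
          ext q
          simp only [mem_ofPred_eq, mem_union, mem_compl_iff, hb, true_implies]
          tauto
        rw [e2]
        exact m3.compl.union m4.compl
      · have e2 : {q : ({i // p i} → ℝ) × ({i // ¬ p i} → ℝ) |
            b.1 ∈ B → q.1 a ∈ W r → ¬ (q.1 a < q.2 b ∧ q.2 b < q.1 a + ε)} = univ := by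
          ext q
          simp [hb]
        rw [e2]
        exact MeasurableSet.univ
  have hpre : {ω : ι → ℝ | (∀ r : Fin L, ∃ a ∈ A, ω a ∈ W r) ∧
      ∀ a ∈ A, ∀ b ∈ B, ∀ r : Fin L, ω a ∈ W r → ¬ (ω a < ω b ∧ ω b < ω a + ε)} ⊆
      (MeasurableEquiv.piEquivPiSubtypeProd (fun _ : ι => ℝ) p) ⁻¹' T' := by
    rintro ω ⟨h1, h2⟩
    refine ⟨fun r => ?_, fun a b r hb ha => ?_⟩
    · obtain ⟨a, ha, h3⟩ := h1 r
      exact ⟨⟨a, ha⟩, h3⟩
    · exact h2 a.1 a.2 b.1 hb r ha
  refine (measure_mono hpre).trans ?_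
  rw [hmp.measure_preimage hmeas.nullMeasurableSet, Measure.prod_apply hmeas]
  have hsec : ∀ x : {i // p i} → ℝ, Measure.pi (fun _ : {i // ¬ p i} => unif) (Prod.mk x ⁻¹' T') ≤
      ENNReal.ofReal (Real.exp (-(L * ε / Real.pi * B.card))) := by
    intro x
    by_cases hx : ∀ r : Fin L, ∃ a : {i // p i}, x a ∈ W r
    · choose a ha using hx
      set U : Set ℝ := ⋃ r, Ioo (x (a r)) (x (a r) + ε) with hU
      set B' : Finset {i // ¬ p i} := B.subtype (fun i => ¬ p i) with hB'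
      have hcard : B'.card = B.card := by
        rw [hB', Finset.card_subtype]
        congr 1
        apply Finset.filter_true_of_mem
        intro i hi hA
        exact (Finset.disjoint_left.1 hAB hA) hi
      have hsub : Prod.mk x ⁻¹' T' ⊆ {ω | ∀ i ∈ B', ω i ∉ U} := by
        rintro y ⟨_, hy⟩ i hi hiU
        rw [hU, mem_iUnion] at hiU
        obtain ⟨r, hr⟩ := hiU
        rw [hB', Finset.mem_subtype] at hi
        exact hy (a r) i r hi (ha r) ⟨hr.1, hr.2⟩
      refine (measure_mono hsub).trans ?_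
      have hUm : MeasurableSet U := MeasurableSet.iUnion fun r => measurableSet_Ioo
      rw [pi_miss B' U hUm, hcard]
      exact pow_bound _ (by have := Real.pi_pos; positivity) _
        (union_lower L s0 h ε hε hεh hs0 hs1 (fun r => x (a r)) ha) _
    · have : Prod.mk x ⁻¹' T' = ∅ := by
        ext y
        simp only [mem_preimage, mem_empty_iff_false, iff_false]
        rintro ⟨h1, _⟩
        exact hx h1
      rw [this, measure_empty]
      simp
  refine (lintegral_mono hsec).trans ?_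
  rw [lintegral_const, measure_univ, mul_one]

end Pool.Agent.K7.H61.RA
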