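import Pool.Agent.K7.H61.RA.Prob

set_option autoImplicit false

/-! # Finding the samples for the base configuration -/

namespace Pool.Agent.K7.H61.RA

open MeasureTheory Set ProbabilityTheory Filter Topology
open scoped ENNReal

theorem exists_block {J : Type} [Finite J] (W : J → Set ℝ)
    (hW : ∀ j, 0 < unif (W j)) (x : ℝ≥0∞) (hx : 0 < x) :
    ∃ B : ℕ, ∀ j, (1 - unif (W j)) ^ B ≤ x := by
  have h1 : ∀ j, ∀ᶠ B : ℕ in atTop, (1 - unif (W j)) ^ B ≤ x := by
    intro j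
    have h2 : 1 - unif (W j) < 1 := ENNReal.sub_lt_self ENNReal.one_ne_top one_ne_zero (hW j).ne'
    have h3 := ENNReal.tendsto_pow_atTop_nhds_zero_of_lt_one h2
    exact (h3.eventually (gt_mem_nhds hx)).mono fun _ h => h.le
  exact (eventually_all.2 h1).exists

theorem roles (J : Type) [Fintype J] [DecidableEq J] (W : J → Set ℝ)
    (hW : ∀ j, IsOpen (W j) ∧ (W j).Nonempty ∧ W j ⊆ Ioo 0 Real.pi) (k : ℕ) (hk : 0 < k) (α₁ α₂ : ℝ)
    (h0 : 0 ≤ α₁) (h1 : α₁ < α₂) (h2 : α₂ ≤ Real.pi) (c ρ : ℝ) (hc : 0 < c) (hρ : 0 < ρ) :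
    ∃ N₁ : ℕ, ∀ N ≥ N₁, Measure.pi (fun _ : Fin N => unif) {ω | ¬ ∃ r : J ⊕ (Fin k ⊕ Fin k) → Fin N,
      Function.Injective r ∧ (∀ j, ω (r (Sum.inl j)) ∈ W j) ∧
      (∀ i, ω (r (Sum.inr (Sum.inl i))) ∈ Ioo α₁ α₂ ∧ ω (r (Sum.inr (Sum.inr i))) ∈ Ioo α₁ α₂ ∧
        |ω (r (Sum.inr (Sum.inl i))) - ω (r (Sum.inr (Sum.inr i)))| < c / N)} ≤ ENNReal.ofReal ρ := by
  have hpi := Real.pi_pos
  have hk' : (0 : ℝ) < k := by exact_mod_cast hk
  obtain ⟨L, hL⟩ := exists_nat_gt (max 0 (Real.log (2 * k / ρ) * (2 * k * Real.pi / c)))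
  have hL0' : (0 : ℝ) < L := (le_max_left _ _).trans_lt hL
  have hL0 : 0 < L := by exact_mod_cast hL0'
  have hLexp : Real.exp (-(L * c / (2 * k * Real.pi))) ≤ ρ / (2 * k) := by
    have e1 : Real.log (2 * k / ρ) ≤ L * c / (2 * k * Real.pi) := by
      rw [le_div_iff₀ (by positivity)]
      have := (le_max_right _ _).trans_lt hL
      have e2 : Real.log (2 * k / ρ) * (2 * k * Real.pi) = Real.log (2 * k / ρ) * (2 * k * Real.pi / c) * c := by
        field_simp
      rw [e2]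
      exact mul_le_mul_of_nonneg_right this.le hc.le
    have e3 : ρ / (2 * k) = Real.exp (-Real.log (2 * k / ρ)) := by
      rw [Real.exp_neg, Real.exp_log (by positivity), inv_div]
    rw [e3]
    exact Real.exp_le_exp.2 (neg_le_neg e1)
  set h := (α₂ - α₁) / (2 * L) with hh
  have hhpos : 0 < h := div_pos (by linarith) (by positivity)
  have hhL : α₁ + 2 * h * L = α₂ := by rw [hh]; field_simp; ring
  set Wp : Fin L → Set ℝ := fun r => Ioo (α₁ + 2 * h * r) (α₁ + 2 * h * r + h) with hWp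
  have hWpsub : ∀ r : Fin L, 0 ≤ 2 * h * ((r : ℕ) : ℝ) ∧ α₁ + 2 * h * ((r : ℕ) : ℝ) + 2 * h ≤ α₂ := by
    intro r
    have e1 : ((r : ℕ) : ℝ) + 1 ≤ L := by exact_mod_cast r.2
    refine ⟨by positivity, ?_⟩
    nlinarith
  set W' : J ⊕ (Fin k × Fin L) → Set ℝ := Sum.elim W (fun q => Wp q.2) with hW'
  have hW'o : ∀ j, IsOpen (W' j) := by
    rintro (j | q)
    · exact (hW j).1
    · exact isOpen_Ioo
  have hW'pos : ∀ j, 0 < unif (W' j) := by
    rintro (j | q)
    · exact unif_pos _ (hW j).1 (hW j).2.1 (hW j).2.2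
    · refine unif_pos _ isOpen_Ioo (nonempty_Ioo.2 (by linarith)) ?_
      intro y hy
      have e1 := hWpsub q.2
      exact ⟨by linarith [hy.1, e1.1], by linarith [hy.2, e1.2]⟩
  have hne : Nonempty (J ⊕ (Fin k × Fin L)) := ⟨Sum.inr (⟨0, hk⟩, ⟨0, hL0⟩)⟩
  set nJ : ℕ := Fintype.card (J ⊕ (Fin k × Fin L)) with hnJ
  have hnJ0 : 0 < nJ := Fintype.card_pos
  have hnJ0' : (0 : ℝ) < nJ := by exact_mod_cast hnJ0
  obtain ⟨B, hB⟩ := exists_block W' hW'pos (ENNReal.ofReal (ρ / 2 / nJ)) (ENNReal.ofReal_pos.2 (by positivity))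
  set nA : ℕ := nJ * B with hnA
  obtain ⟨N₂, hN₂⟩ := exists_nat_gt (c / h)
  refine ⟨max (2 * nA + 2 * k + 1) N₂, fun N hN => ?_⟩
  have hN1 : 2 * nA + 2 * k + 1 ≤ N := (le_max_left _ _).trans hN
  have hN2 : N₂ ≤ N := (le_max_right _ _).trans hN
  have hN0 : (0 : ℝ) < N := by exact_mod_cast (by omega : 0 < N)
  set nB : ℕ := (N - nA) / k with hnB
  have hnB1 : (N : ℝ) / (2 * k) ≤ nB := by
    have e1 : N - nA < (nB + 1) * k := by
      rw [hnB, mul_comm]
      exact Nat.lt_mul_div_succ _ hk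
    have e2 : N < (nB + 1) * k + nA := by omega
    have e3 : (N : ℝ) < (nB + 1) * k + nA := by exact_mod_cast e2
    have e4 : (2 * nA + 2 * k + 1 : ℝ) ≤ N := by exact_mod_cast hN1
    rw [div_le_iff₀ (by positivity)]
    nlinarith
  have hcard : Fintype.card (((J ⊕ (Fin k × Fin L)) × Fin B) ⊕ (Fin k × Fin nB)) ≤ Fintype.card (Fin N) := by
    rw [Fintype.card_sum, Fintype.card_prod, Fintype.card_prod, Fintype.card_fin, Fintype.card_fin,
      Fintype.card_fin, Fintype.card_fin, ← hnJ, ← hnA]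
    have := Nat.mul_div_le (N - nA) k
    rw [← hnB] at this
    omega
  obtain ⟨Φ⟩ := Function.Embedding.nonempty_of_card_le hcard
  set ε := c / N with hε
  have hε0 : 0 < ε := by positivity
  have hεh : ε ≤ h := by
    have e1 : c / h < N := hN₂.trans_le (by exact_mod_cast hN2)
    rw [hε, div_le_iff₀ hN0]
    rw [div_lt_iff₀ hhpos] at e1
    linarith
  -- the two kinds of bad events
  set S1 : J ⊕ (Fin k × Fin L) → Finset (Fin N) := fun j => Finset.univ.image (fun t : Fin B => Φ (Sum.inl (j, t)))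
    with hS1
  set A : Fin k → Finset (Fin N) := fun i => Finset.univ.image
    (fun q : Fin L × Fin B => Φ (Sum.inl (Sum.inr (i, q.1), q.2))) with hA
  set Bf : Fin k → Finset (Fin N) := fun i => Finset.univ.image (fun l : Fin nB => Φ (Sum.inr (i, l))) with hBf
  set F1 : J ⊕ (Fin k × Fin L) → Set (Fin N → ℝ) := fun j => {ω | ∀ i ∈ S1 j, ω i ∉ W' j} with hF1
  set F2 : Fin k → Set (Fin N → ℝ) := fun i => {ω | (∀ r : Fin L, ∃ a ∈ A i, ω a ∈ Wp r) ∧
      ∀ a ∈ A i, ∀ b ∈ Bf i, ∀ r : Fin L, ω a ∈ Wp r → ¬ (ω a < ω b ∧ ω b < ω a + ε)} with hF2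
  set μ := Measure.pi (fun _ : Fin N => unif) with hμ
  have hS1card : ∀ j, (S1 j).card = B := by
    intro j
    rw [hS1]
    rw [Finset.card_image_of_injective, Finset.card_univ, Fintype.card_fin]
    intro t t' ht
    have := Φ.injective ht
    simpa using this
  have hBcard : ∀ i, (Bf i).card = nB := by
    intro i
    rw [hBf]
    rw [Finset.card_image_of_injective, Finset.card_univ, Fintype.card_fin]
    intro t t' ht
    have := Φ.injective ht
    simpa using this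
  have hm1 : ∀ j, μ (F1 j) ≤ ENNReal.ofReal (ρ / 2 / nJ) := by
    intro j
    rw [hμ, hF1]
    simp only
    rw [pi_miss (S1 j) (W' j) (hW'o j).measurableSet, hS1card]
    exact hB j
  have hm2 : ∀ i, μ (F2 i) ≤ ENNReal.ofReal (ρ / (2 * k)) := by
    intro i
    have hdis : Disjoint (A i) (Bf i) := by
      rw [Finset.disjoint_left]
      intro x hx hx'
      rw [hA, Finset.mem_image] at hx
      rw [hBf, Finset.mem_image] at hx'
      obtain ⟨q, _, hq⟩ := hx
      obtain ⟨l, _, hl⟩ := hx'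
      have := Φ.injective (hq.trans hl.symm)
      simp at this
    have e1 := pair_miss (A i) (Bf i) hdis L α₁ h ε hε0 hεh h0 (by linarith)
    refine e1.trans (ENNReal.ofReal_le_ofReal ?_)
    refine le_trans ?_ hLexp
    rw [hBcard]
    apply Real.exp_le_exp.2
    apply neg_le_neg
    calc L * c / (2 * k * Real.pi) = L * (c / N) / Real.pi * (N / (2 * k)) := by field_simp
      _ ≤ L * ε / Real.pi * nB := by
        rw [← hε]
        gcongr
  have hsub : {ω : Fin N → ℝ | ¬ ∃ r : J ⊕ (Fin k ⊕ Fin k) → Fin N,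
      Function.Injective r ∧ (∀ j, ω (r (Sum.inl j)) ∈ W j) ∧
      (∀ i, ω (r (Sum.inr (Sum.inl i))) ∈ Ioo α₁ α₂ ∧ ω (r (Sum.inr (Sum.inr i))) ∈ Ioo α₁ α₂ ∧
        |ω (r (Sum.inr (Sum.inl i))) - ω (r (Sum.inr (Sum.inr i)))| < c / N)} ⊆ (⋃ j, F1 j) ∪ ⋃ i, F2 i := by
    intro ω hω
    by_contra hcon
    apply hω
    rw [mem_union, not_or, mem_iUnion, mem_iUnion, not_exists, not_exists] at hcon
    obtain ⟨hc1, hc2⟩ := hcon
    have hc1' : ∀ j, ∃ t : Fin B, ω (Φ (Sum.inl (j, t))) ∈ W' j := by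
      intro j
      have := hc1 j
      rw [hF1, mem_ofPred_eq] at this
      push Not at this
      obtain ⟨i, hi, hi2⟩ := this
      rw [hS1, Finset.mem_image] at hi
      obtain ⟨t, _, ht⟩ := hi
      exact ⟨t, by rw [ht]; exact hi2⟩
    have hc2' : ∀ i, ∃ (q : Fin L × Fin B) (l : Fin nB),
        ω (Φ (Sum.inl (Sum.inr (i, q.1), q.2))) ∈ Ioo α₁ α₂ ∧ ω (Φ (Sum.inr (i, l))) ∈ Ioo α₁ α₂ ∧
        |ω (Φ (Sum.inl (Sum.inr (i, q.1), q.2))) - ω (Φ (Sum.inr (i, l)))| < c / N := by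
      intro i
      have h3 := hc2 i
      rw [hF2, mem_ofPred_eq, not_and] at h3
      have h4 : ∀ r : Fin L, ∃ a ∈ A i, ω a ∈ Wp r := by
        intro r
        obtain ⟨t, ht⟩ := hc1' (Sum.inr (i, r))
        exact ⟨Φ (Sum.inl (Sum.inr (i, r), t)), Finset.mem_image.2 ⟨(r, t), Finset.mem_univ _, rfl⟩, ht⟩
      have h5 := h3 h4
      push Not at h5
      obtain ⟨a, ha, b, hb, r, har, hab1, hab2⟩ := h5
      rw [hA, Finset.mem_image] at ha
      rw [hBf, Finset.mem_image] at hb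
      obtain ⟨q, _, hq⟩ := ha
      obtain ⟨l, _, hl⟩ := hb
      have e1 := hWpsub r
      refine ⟨q, l, ?_, ?_, ?_⟩
      · rw [hq]; exact ⟨by linarith [har.1, e1.1], by linarith [har.2, e1.2]⟩
      · rw [hl]; exact ⟨by linarith [har.1, e1.1], by linarith [har.2, e1.2]⟩
      · rw [hq, hl, abs_lt]
        constructor <;> linarith
    choose t ht using hc1'
    choose q l hql using hc2'
    refine ⟨fun x => Φ (Sum.elim (fun j => Sum.inl (Sum.inl j, t (Sum.inl j)))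
      (Sum.elim (fun i => Sum.inl (Sum.inr (i, (q i).1), (q i).2)) (fun i => Sum.inr (i, l i))) x), ?_, ?_, ?_⟩
    · intro x y hxy
      have h6 := Φ.injective hxy
      rcases x with x | x | x <;> rcases y with y | y | y <;>
        simp only [Sum.elim_inl, Sum.elim_inr, Sum.inl.injEq, Sum.inr.injEq, Prod.mk.injEq, reduceCtorEq,
          false_and] at h6 ⊢
      · exact h6.1
      · exact h6.1.1
      · exact h6.1
    · intro j
      exact ht (Sum.inl j)
    · intro i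
      exact hql i
  refine (measure_mono hsub).trans ?_
  refine (measure_union_le _ _).trans ?_
  have hu1 : μ (⋃ j, F1 j) ≤ ENNReal.ofReal (ρ / 2) := by
    refine (measure_iUnion_fintype_le _ _).trans ?_
    calc ∑ j, μ (F1 j) ≤ ∑ _j : J ⊕ (Fin k × Fin L), ENNReal.ofReal (ρ / 2 / nJ) :=
          Finset.sum_le_sum fun j _ => hm1 j
      _ = ENNReal.ofReal (ρ / 2) := by
        rw [Finset.sum_const, Finset.card_univ, ← hnJ, nsmul_eq_mul, ← ENNReal.ofReal_natCast,
          ← ENNReal.ofReal_mul hnJ0'.le]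
        congr 1
        field_simp
  have hu2 : μ (⋃ i, F2 i) ≤ ENNReal.ofReal (ρ / 2) := by
    refine (measure_iUnion_fintype_le _ _).trans ?_
    calc ∑ i, μ (F2 i) ≤ ∑ _i : Fin k, ENNReal.ofReal (ρ / (2 * k)) :=
          Finset.sum_le_sum fun j _ => hm2 j
      _ = ENNReal.ofReal (ρ / 2) := by
        rw [Finset.sum_const, Finset.card_univ, Fintype.card_fin, nsmul_eq_mul, ← ENNReal.ofReal_natCast,
          ← ENNReal.ofReal_mul hk'.le]
        congr 1
        field_simp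
  calc μ (⋃ j, F1 j) + μ (⋃ i, F2 i) ≤ ENNReal.ofReal (ρ / 2) + ENNReal.ofReal (ρ / 2) := add_le_add hu1 hu2
    _ = ENNReal.ofReal ρ := by
      rw [← ENNReal.ofReal_add (by positivity) (by positivity)]
      congr 1
      ring

end Pool.Agent.K7.H61.RA
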